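import Mathlib

/-!
# The strictly elitist (1+1) GP on ORDER: definitions
-/

set_option autoImplicit false

open scoped ENNReal

namespace Pool.Agent.Lib.MP_3edecc_lc

/-- The literals over `n` variables: `(i, true)` is `x_i`, `(i, false)` is its negation. -/
abbrev Lit (n : ℕ) : Type := Fin n × Bool

/-- Nonempty binary trees with ordered children: leaves carry literals, internal nodes are
`J`-nodes. -/
inductive Tree (n : ℕ) : Type
  | leaf (l : Lit n) : Tree n
  | J (a b : Tree n) : Tree n

/-- The states of the search: `none` is the empty tree, `some t` a nonempty tree. -/
abbrev State (n : ℕ) : Type := Option (Tree n)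

/-- The leaf labels of a nonempty tree, from left to right. -/
def Tree.leaves {n : ℕ} : Tree n → List (Lit n)
  | .leaf l => [l]
  | .J a b => a.leaves ++ b.leaves

/-- The leaf labels of a state, from left to right. -/
def leaves {n : ℕ} : State n → List (Lit n)
  | none => []
  | some t => t.leaves

/-- The size of a state: its number of leaves. -/
def size {n : ℕ} (X : State n) : ℕ := (leaves X).length

/-- Variable `i` is expressed in the leaf sequence `w`: `x_i` occurs, and no negated `x_i` occurs
before the first occurrence of `x_i`. -/
def Expressed {n : ℕ} (w : List (Lit n)) (i : Fin n) : Prop :=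
  ∃ u v : List (Lit n), w = u ++ (i, true) :: v ∧ (i, true) ∉ u ∧ (i, false) ∉ u

open Classical in
/-- ORDER: the number of expressed variables. -/
noncomputable def fitness {n : ℕ} (X : State n) : ℕ :=
  (Finset.univ.filter (fun i : Fin n => Expressed (leaves X) i)).card

/-- A state is optimal iff all `n` variables are expressed. -/
def Optimal {n : ℕ} (X : State n) : Prop := fitness X = n

/-- The list, over all nodes `v` of `t` (in preorder), of the trees obtained from `t` by
replacing the subtree `s` rooted at `v` by `φ s`. -/
def Tree.atNodes {n : ℕ} (φ : Tree n → Tree n) : Tree n → List (Tree n)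
  | .leaf l => [φ (.leaf l)]
  | .J a b => φ (.J a b) ::
      ((a.atNodes φ).map (fun a' => Tree.J a' b) ++ (b.atNodes φ).map (fun b' => Tree.J a b'))

/-- The local operation of an insertion: the node (with its subtree `s`) is replaced by a
`J`-node whose children are `s` and a new leaf `l`; the new leaf is the right child iff
`right = true`. -/
def insAt {n : ℕ} (l : Lit n) (right : Bool) (s : Tree n) : Tree n :=
  if right then .J s (.leaf l) else .J (.leaf l) s

/-- The local operation of a substitution: a leaf is relabelled, an internal node is
unchanged. -/
def subAt {n : ℕ} (l : Lit n) : Tree n → Tree n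
  | .leaf _ => .leaf l
  | .J a b => .J a b

/-- Put `b` to the right of the result `a` of a deletion; if `a` is empty its `J`-parent has been
replaced by the sibling `b`. -/
def joinL {n : ℕ} (b : Tree n) : State n → State n
  | none => some b
  | some a => some (.J a b)

/-- Put `a` to the left of the result `b` of a deletion; if `b` is empty its `J`-parent has been
replaced by the sibling `a`. -/
def joinR {n : ℕ} (a : Tree n) : State n → State n
  | none => some a
  | some b => some (.J a b)

/-- The list, over all leaves `v` of `t` from left to right, of the results of deleting `v`,
that is of replacing the parent of `v` by the sibling of `v`. The only leaf of a single-leaf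
tree is deleted to the empty tree. -/
def Tree.deletions {n : ℕ} : Tree n → List (State n)
  | .leaf _ => [none]
  | .J a b => a.deletions.map (joinL b) ++ b.deletions.map (joinR a)

/-- The uniform distribution on the entries of a nonempty list (entries at different places are
different outcomes, so each place has probability `1 / l.length`); for the empty list, which does
not occur below, it is the point mass at `d`. -/
noncomputable def pick {α : Type} (d : α) (l : List α) : PMF α :=
  if h : l.length = 0 then PMF.pure d
  else
    haveI : Nonempty (Fin l.length) := ⟨⟨0, Nat.pos_of_ne_zero h⟩⟩
    (PMF.uniformOfFintype (Fin l.length)).map l.get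

/-- The three operations. -/
inductive Op : Type
  | INS : Op
  | DEL : Op
  | SUB : Op
  deriving DecidableEq, Fintype, Inhabited

/-- HVL-Prime. -/
noncomputable def hvl {n : ℕ} [NeZero n] : State n → PMF (State n)
  | none => (PMF.uniformOfFintype (Lit n)).map (fun l => some (.leaf l))
  | some t => (PMF.uniformOfFintype Op).bind fun op =>
      match op with
      | .INS => (PMF.uniformOfFintype (Lit n)).bind fun l =>
          (PMF.uniformOfFintype Bool).bind fun right =>
            (pick t (t.atNodes (insAt l right))).map some
      | .DEL => pick none t.deletions
      | .SUB => (PMF.uniformOfFintype (Lit n)).bind fun l =>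
          (pick t (t.atNodes (subAt l))).map some

/-- `k` successive applications of HVL-Prime. -/
noncomputable def hvlIter {n : ℕ} [NeZero n] : ℕ → State n → PMF (State n)
  | 0, X => PMF.pure X
  | k + 1, X => (hvl X).bind (hvlIter k)

/-- The Poisson distribution with parameter `1`. -/
noncomputable def poisson1 : PMF ℕ := (ProbabilityTheory.poissonMeasure 1).toPMF

open Classical in
/-- One iteration of the (1+1) GP*: draw `k = 1 + Poisson(1)`, apply HVL-Prime `k` times, and
accept the result `Y` iff it is strictly fitter than the current tree `X`. -/
noncomputable def gpStep {n : ℕ} [NeZero n] (X : State n) : PMF (State n) :=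
  poisson1.bind fun j =>
    (hvlIter (1 + j) X).map fun Y => if fitness X < fitness Y then Y else X

open Classical in
/-- The probability that, when the (1+1) GP* is started in `X`, none of the current trees after
`0, 1, ..., t` iterations is optimal; that is, the probability that the optimization time
is larger than `t`. -/
noncomputable def probNotYet {n : ℕ} [NeZero n] : ℕ → State n → ℝ≥0∞
  | 0, X => if Optimal X then 0 else 1
  | t + 1, X => if Optimal X then 0 else ∑' Y, gpStep X Y * probNotYet t Y

/-- The expected optimization time `E[T] = ∑_{t ≥ 0} P(T > t)` of the (1+1) GP* on ORDER when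
started in `X`. -/
noncomputable def expectedTime {n : ℕ} [NeZero n] (X : State n) : ℝ≥0∞ :=
  ∑' t : ℕ, probNotYet t X

end Pool.Agent.Lib.MP_3edecc_lc
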