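import Pool.Agent.Lib.MP_3edecc_lc.Defs

/-!
# Expectations with respect to a `PMF`
-/

set_option autoImplicit false

open scoped ENNReal NNReal

namespace Pool.Agent.Lib.MP_3edecc_lc

/-- Expectation of a nonnegative function. -/
noncomputable def Ex {α : Type} (p : PMF α) (F : α → ℝ≥0∞) : ℝ≥0∞ := ∑' a, p a * F a

section

variable {α β : Type}

theorem Ex_mono {p : PMF α} {F G : α → ℝ≥0∞} (h : ∀ a, F a ≤ G a) : Ex p F ≤ Ex p G :=
  ENNReal.tsum_le_tsum fun a => mul_le_mul_right (h a) _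

theorem Ex_bind (p : PMF α) (f : α → PMF β) (F : β → ℝ≥0∞) :
    Ex (p.bind f) F = Ex p (fun a => Ex (f a) F) := by
  unfold Ex
  simp only [PMF.bind_apply, ← ENNReal.tsum_mul_right, ← ENNReal.tsum_mul_left]
  rw [ENNReal.tsum_comm]
  simp only [mul_assoc]

theorem Ex_pure (a : α) (F : α → ℝ≥0∞) : Ex (PMF.pure a) F = F a := by
  unfold Ex
  rw [tsum_eq_single a]
  · simp
  · intro b hb
    simp [PMF.pure_apply_of_ne _ _ hb]

theorem Ex_map (p : PMF α) (g : α → β) (F : β → ℝ≥0∞) :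
    Ex (p.map g) F = Ex p (fun a => F (g a)) := by
  unfold PMF.map
  rw [Ex_bind]
  simp [Ex_pure, Function.comp]

theorem Ex_const (p : PMF α) (c : ℝ≥0∞) : Ex p (fun _ => c) = c := by
  unfold Ex
  rw [ENNReal.tsum_mul_right, p.tsum_coe, one_mul]

theorem Ex_const_mul (p : PMF α) (c : ℝ≥0∞) (F : α → ℝ≥0∞) :
    Ex p (fun a => c * F a) = c * Ex p F := by
  unfold Ex
  rw [← ENNReal.tsum_mul_left]
  congr 1; ext a; ring

theorem Ex_add (p : PMF α) (F G : α → ℝ≥0∞) :
    Ex p (fun a => F a + G a) = Ex p F + Ex p G := by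
  unfold Ex
  rw [← ENNReal.tsum_add]
  congr 1; ext a; ring

theorem Ex_finset_sum {ι : Type} (s : Finset ι) (p : PMF α) (F : ι → α → ℝ≥0∞) :
    Ex p (fun a => ∑ i ∈ s, F i a) = ∑ i ∈ s, Ex p (F i) := by
  classical
  induction s using Finset.induction_on with
  | empty => simp [Ex_const]
  | insert a s ha ih => simp only [Finset.sum_insert ha, Ex_add, ih]

theorem Ex_uniform [Fintype α] [Nonempty α] (F : α → ℝ≥0∞) :
    Ex (PMF.uniformOfFintype α) F = (∑ a, F a) / (Fintype.card α : ℝ≥0∞) := by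
  unfold Ex
  simp only [PMF.uniformOfFintype_apply]
  rw [ENNReal.tsum_mul_left, tsum_fintype, ENNReal.div_eq_inv_mul]

theorem Ex_pick (d : α) (l : List α) (hl : l ≠ []) (F : α → ℝ≥0∞) :
    Ex (pick d l) F = (l.map F).sum / (l.length : ℝ≥0∞) := by
  have h0 : l.length ≠ 0 := by simpa using hl
  unfold pick
  rw [dif_neg h0]
  haveI : Nonempty (Fin l.length) := ⟨⟨0, Nat.pos_of_ne_zero h0⟩⟩
  rw [Ex_map, Ex_uniform]
  congr 1
  · rw [← List.sum_ofFn]
    congr 1
    apply List.ext_get <;> simp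
  · simp

end

end Pool.Agent.Lib.MP_3edecc_lc
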