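import Pool.Agent.Lib.MP_3edecc_lc.SubDel
import Pool.Agent.Lib.MP_3edecc_lc.Expect

/-!
# One-step estimate for the potential of one variable
-/

set_option autoImplicit false

open scoped ENNReal NNReal

namespace Pool.Agent.Lib.MP_3edecc_lc

section
variable {n : ℕ}

/-! ### One step of HVL-Prime as a finite sum -/

noncomputable def sumI (t : Tree n) (F : State n → ℝ≥0) : ℝ≥0 :=
  ∑ l : Lit n, ∑ r : Bool, ((t.atNodes (insAt l r)).map (fun t' => F (some t'))).sum

noncomputable def sumD (t : Tree n) (F : State n → ℝ≥0) : ℝ≥0 := (t.deletions.map F).sum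

noncomputable def sumS (t : Tree n) (F : State n → ℝ≥0) : ℝ≥0 :=
  ∑ l : Lit n, ((t.atNodes (subAt l)).map (fun t' => F (some t'))).sum

noncomputable def EhN (t : Tree n) (F : State n → ℝ≥0) : ℝ≥0 :=
  (sumI t F / (4 * n * (2 * t.size - 1 : ℕ)) + sumD t F / t.size +
    sumS t F / (2 * n * (2 * t.size - 1 : ℕ))) / 3

theorem coe_list_sum {α : Type} (L : List α) (F : α → ℝ≥0) :
    (L.map (fun a => ((F a : ℝ≥0) : ℝ≥0∞))).sum = (((L.map F).sum : ℝ≥0) : ℝ≥0∞) := by
  induction L with
  | nil => simp
  | cons a L ih => simp only [List.map_cons, List.sum_cons, ih, ENNReal.coe_add]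

theorem coe_div_nat (a : ℝ≥0) (k : ℕ) (hk : k ≠ 0) :
    ((a : ℝ≥0) : ℝ≥0∞) / (k : ℝ≥0∞) = ((a / k : ℝ≥0) : ℝ≥0∞) := by
  rw [ENNReal.coe_div (by exact_mod_cast hk)]
  simp

theorem hvl_Ex [NeZero n] (t : Tree n) (F : State n → ℝ≥0) :
    Ex (hvl (some t)) (fun X => (F X : ℝ≥0∞)) = (EhN t F : ℝ≥0) := by
  have hT := t.size_pos
  have hn : n ≠ 0 := NeZero.ne n
  have hlen : ∀ φ, (t.atNodes φ).length = 2 * t.size - 1 := by
    intro φ; have := length_atNodes φ t; omega
  have hM : 2 * t.size - 1 ≠ 0 := by omega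
  have hcard : Fintype.card (Lit n) = 2 * n := by
    simp [Lit, mul_comm]
  have hop : Fintype.card Op = 3 := rfl
  have hI : Ex ((PMF.uniformOfFintype (Lit n)).bind fun l =>
          (PMF.uniformOfFintype Bool).bind fun right =>
            (pick t (t.atNodes (insAt l right))).map some) (fun X => (F X : ℝ≥0∞)) =
        ((sumI t F / (4 * n * (2 * t.size - 1 : ℕ)) : ℝ≥0) : ℝ≥0∞) := by
    rw [Ex_bind, Ex_uniform, hcard]
    simp only [Ex_bind, Ex_map, Ex_uniform, Fintype.card_bool]
    simp only [Ex_pick _ _ (atNodes_ne_nil _ t), hlen]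
    simp only [coe_list_sum t.deletions, coe_list_sum]
    have h1 : ∀ l : Lit n, ∀ r : Bool,
        (((t.atNodes (insAt l r)).map (fun a => ((F (some a) : ℝ≥0) : ℝ≥0∞))).sum) =
        ((((t.atNodes (insAt l r)).map (fun a => F (some a))).sum : ℝ≥0) : ℝ≥0∞) := by
      intro l r
      exact coe_list_sum _ (fun a => F (some a))
    simp only [h1, coe_div_nat _ _ hM]
    simp only [← ENNReal.ofNNReal_finsetSum]
    have h2 : ∀ a : ℝ≥0, ((a : ℝ≥0) : ℝ≥0∞) / ((2 : ℕ) : ℝ≥0∞) = ((a / 2 : ℝ≥0) : ℝ≥0∞) := by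
      intro a; rw [coe_div_nat _ _ (by norm_num)]; norm_num
    simp only [h2]
    simp only [← ENNReal.ofNNReal_finsetSum]
    rw [coe_div_nat _ _ (by omega)]
    congr 1
    unfold sumI
    simp only [← Finset.sum_div]
    push_cast
    field_simp
    ring
  have hD : Ex (pick none t.deletions) (fun X => (F X : ℝ≥0∞)) =
        ((sumD t F / t.size : ℝ≥0) : ℝ≥0∞) := by
    rw [Ex_pick _ _ (deletions_ne_nil t), length_deletions, coe_list_sum, coe_div_nat _ _ (by omega)]
    rfl
  have hS : Ex ((PMF.uniformOfFintype (Lit n)).bind fun l =>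
          (pick t (t.atNodes (subAt l))).map some) (fun X => (F X : ℝ≥0∞)) =
        ((sumS t F / (2 * n * (2 * t.size - 1 : ℕ)) : ℝ≥0) : ℝ≥0∞) := by
    rw [Ex_bind, Ex_uniform, hcard]
    simp only [Ex_map]
    simp only [Ex_pick _ _ (atNodes_ne_nil _ t), hlen]
    have h1 : ∀ l : Lit n,
        (((t.atNodes (subAt l)).map (fun a => ((F (some a) : ℝ≥0) : ℝ≥0∞))).sum) =
        ((((t.atNodes (subAt l)).map (fun a => F (some a))).sum : ℝ≥0) : ℝ≥0∞) := by
      intro l
      exact coe_list_sum _ (fun a => F (some a))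
    simp only [h1, coe_div_nat _ _ hM]
    simp only [← ENNReal.ofNNReal_finsetSum]
    rw [coe_div_nat _ _ (by omega)]
    congr 1
    unfold sumS
    simp only [← Finset.sum_div]
    push_cast
    field_simp
  unfold hvl
  simp only
  rw [Ex_bind, Ex_uniform, hop]
  have huniv : (Finset.univ : Finset Op) = {Op.INS, Op.DEL, Op.SUB} := rfl
  rw [huniv, Finset.sum_insert (by decide), Finset.sum_insert (by decide), Finset.sum_singleton]
  simp only
  rw [hI, hD, hS, ← ENNReal.coe_add, ← ENNReal.coe_add, coe_div_nat _ _ (by norm_num)]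
  congr 1
  unfold EhN
  push_cast
  ring


/-! ### The potential of variable `i` -/

/-- weight of a level -/
noncomputable def rho (T k : ℕ) : ℝ≥0 :=
  if k = 0 then 1 else if k = 1 then 1 / T else if k = 2 then 1 / T ^ 2 else 0

theorem rho_antitone (T : ℕ) (hT : 1 ≤ T) : Antitone (rho T) := by
  have h1 : (1 : ℝ≥0) / T ≤ 1 := by
    rw [div_le_one (by exact_mod_cast hT)]; exact_mod_cast hT
  have h2 : (1 : ℝ≥0) / T ^ 2 ≤ 1 / T := by
    have hT' : (1 : ℝ≥0) ≤ T := by exact_mod_cast hT
    apply div_le_div_of_nonneg_left (by norm_num) (by positivity)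
    nlinarith
  apply antitone_nat_of_succ_le
  intro k
  rcases k with _ | _ | _ | k
  · simpa [rho] using h1
  · simpa [rho] using h2
  · simp [rho]
  · simp [rho]

variable (i : Fin n)

noncomputable def W (X : State n) : ℝ≥0 :=
  match X with
  | none => 1 / n
  | some t => rho t.size (lev i t.leaves) + NN i t / (n * t.size)

theorem one_le_W (X : State n) (h : lev i (leaves X) = 0) : 1 ≤ W i X := by
  cases X with
  | none => simp [leaves, lev] at h
  | some t =>
    simp only [leaves] at h
    unfold W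
    simp only [h, rho, if_true]
    exact le_self_add

/-- list sum bounded by pointwise bound -/
theorem list_sum_le_card {α : Type} (L : List α) (f : α → ℝ≥0) (c : ℝ≥0)
    (h : ∀ a ∈ L, f a ≤ c) : (L.map f).sum ≤ L.length * c := by
  induction L with
  | nil => simp
  | cons a L ih =>
    simp only [List.map_cons, List.sum_cons, List.length_cons]
    have h1 := h a List.mem_cons_self
    have h2 := ih (fun b hb => h b (List.mem_cons_of_mem _ hb))
    push_cast
    calc f a + (L.map f).sum ≤ c + L.length * c := add_le_add h1 h2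
      _ = (L.length + 1) * c := by ring

theorem list_sum_le_count {α : Type} (L : List α) (f : α → ℝ≥0) (P : α → Bool) (c : ℝ≥0)
    (h : ∀ a ∈ L, f a ≤ (if P a then 1 else 0) + c) :
    (L.map f).sum ≤ L.countP P + L.length * c := by
  induction L with
  | nil => simp
  | cons a L ih =>
    simp only [List.map_cons, List.sum_cons, List.length_cons, List.countP_cons]
    have h1 := h a List.mem_cons_self
    have h2 := ih (fun b hb => h b (List.mem_cons_of_mem _ hb))
    push_cast
    calc f a + (L.map f).sum ≤ ((if P a then 1 else 0) + c) + (L.countP P + L.length * c) :=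
          add_le_add h1 h2
      _ = (L.countP P + if P a then 1 else 0) + (L.length + 1) * c := by ring

end

end Pool.Agent.Lib.MP_3edecc_lc
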