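import Pool.Agent.Lib.MP_3edecc_lc.Drift

/-!
# One-step estimate for the potential of one variable (continued)
-/

set_option autoImplicit false

open scoped ENNReal NNReal

namespace Pool.Agent.Lib.MP_3edecc_lc

section
variable {n : ℕ} (i : Fin n)

theorem rho_le_one (T k : ℕ) (hT : 1 ≤ T) : rho T k ≤ 1 := by
  have := rho_antitone T hT (Nat.zero_le k)
  simpa [rho] using this

theorem rho_le_inv (T k : ℕ) (hT : 1 ≤ T) (hk : k ≠ 0) : rho T k ≤ 1 / T := by
  have := rho_antitone T hT (Nat.one_le_iff_ne_zero.2 hk)
  simpa [rho] using this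

theorem rho_size_mono (T T' k : ℕ) (hT : 1 ≤ T) (h : T ≤ T') : rho T' k ≤ rho T k := by
  have h0 : (0 : ℝ≥0) < T := by exact_mod_cast hT
  have h' : (T : ℝ≥0) ≤ T' := by exact_mod_cast h
  unfold rho
  split_ifs
  · exact le_refl _
  · exact div_le_div_of_nonneg_left (by norm_num) h0 h'
  · exact div_le_div_of_nonneg_left (by norm_num) (by positivity) (by gcongr)
  · exact le_refl _

/-- the second part of the potential -/
noncomputable def nu (t : Tree n) : ℝ≥0 := NN i t / (n * t.size)

theorem W_some (t : Tree n) : W i (some t) = rho t.size (lev i t.leaves) + nu i t := rfl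

open Classical in
theorem sumI_W [NeZero n] (t : Tree n) :
    sumI t (W i) ≤ (4 * n * (2 * t.size - 1 : ℕ)) *
      (rho t.size (lev i t.leaves) + 6 * nu i t) := by
  have hT := t.size_pos
  have hn : n ≠ 0 := NeZero.ne n
  have hn' : (0 : ℝ≥0) < n := by exact_mod_cast Nat.pos_of_ne_zero hn
  have hT' : (0 : ℝ≥0) < t.size := by exact_mod_cast hT
  have hlen : ∀ φ, (t.atNodes φ).length = 2 * t.size - 1 := by
    intro φ; have := length_atNodes φ t; omega
  set M : ℕ := 2 * t.size - 1 with hM
  have hMT : (t.size : ℝ≥0) ≤ M := by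
    have : t.size ≤ M := by omega
    exact_mod_cast this
  have hN : (1 : ℝ≥0) ≤ NN i t := by exact_mod_cast NN_pos i t
  set ρ := rho t.size (lev i t.leaves) with hρ
  set ν := nu i t with hν
  -- N part
  have hNpart : ∀ l r, ∀ t' ∈ t.atNodes (insAt l r), nu i t' ≤ 5 * ν := by
    intro l r t' ht'
    have h1 : (NN i t' : ℝ≥0) ≤ 5 * NN i t := by
      have := ins_NN i l r t t' ht'
      have h2 := NN_pos i t
      have : NN i t' ≤ 5 * NN i t := by omega
      exact_mod_cast this
    have h2 : (t.size : ℝ≥0) ≤ t'.size := by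
      have := ins_size l r t t' ht'
      exact_mod_cast (by omega : t.size ≤ t'.size)
    unfold nu at *
    rw [hν]
    calc (NN i t' : ℝ≥0) / (n * t'.size) ≤ (5 * NN i t) / (n * t.size) := by
          gcongr
      _ = 5 * (NN i t / (n * t.size)) := by ring
  -- other literals
  have hoth : ∀ l : Lit n, l ≠ (i, true) → ∀ r,
      ((t.atNodes (insAt l r)).map (fun t' => W i (some t'))).sum ≤ M * (ρ + 5 * ν) := by
    intro l hl r
    rw [← hlen (insAt l r)]
    apply list_sum_le_card
    intro t' ht'
    rw [W_some]
    apply add_le_add _ (hNpart l r t' ht')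
    have h1 := ins_lev i l hl r t t' ht'
    have h2 := ins_size l r t t' ht'
    refine le_trans (rho_antitone t'.size t'.size_pos h1) ?_
    exact rho_size_mono _ _ _ hT (by omega)
  -- the literal x_i
  have hpos : ∑ r : Bool, ((t.atNodes (insAt (i, true) r)).map (fun t' => W i (some t'))).sum ≤
      2 * M * (ρ + 5 * ν) + (NN i t + 2 * M / t.size) := by
    by_cases h0 : lev i t.leaves = 0
    · have hρ1 : ρ = 1 := by rw [hρ, h0]; simp [rho]
      have : ∀ r : Bool, ((t.atNodes (insAt (i, true) r)).map (fun t' => W i (some t'))).sum ≤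
          M * (ρ + 5 * ν) := by
        intro r
        rw [← hlen (insAt (i, true) r)]
        apply list_sum_le_card
        intro t' ht'
        rw [W_some]
        apply add_le_add _ (hNpart _ r t' ht')
        rw [hρ1]
        exact rho_le_one _ _ t'.size_pos
      calc ∑ r : Bool, ((t.atNodes (insAt (i, true) r)).map (fun t' => W i (some t'))).sum
          ≤ ∑ r : Bool, M * (ρ + 5 * ν) := Finset.sum_le_sum fun r _ => this r
        _ = 2 * M * (ρ + 5 * ν) := by simp; ring
        _ ≤ _ := le_self_add
    · have key : ∀ r : Bool,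
          ((t.atNodes (insAt (i, true) r)).map (fun t' => W i (some t'))).sum ≤
          (t.atNodes (insAt (i, true) r)).countP (fun t' => decide (lev i t'.leaves = 0)) +
            M * (1 / t.size + 5 * ν) := by
        intro r
        rw [← hlen (insAt (i, true) r)]
        apply list_sum_le_count
        intro t' ht'
        rw [W_some, ← add_assoc]
        apply add_le_add _ (hNpart _ r t' ht')
        have h2 := ins_size _ r t t' ht'
        by_cases h1 : lev i t'.leaves = 0
        · simp only [h1, decide_true, if_true]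
          refine le_trans (rho_le_one _ _ t'.size_pos) le_self_add
        · simp only [h1, decide_false, Bool.false_eq_true, if_false, zero_add]
          refine le_trans (rho_le_inv _ _ t'.size_pos h1) ?_
          apply div_le_div_of_nonneg_left (by norm_num) hT'
          exact_mod_cast (by omega : t.size ≤ t'.size)
      have hc := ins_count i t h0
      have hc' : ((t.atNodes (insAt (i, true) false)).countP
          (fun t' => decide (lev i t'.leaves = 0)) : ℝ≥0) +
          (t.atNodes (insAt (i, true) true)).countP (fun t' => decide (lev i t'.leaves = 0)) =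
          NN i t := by exact_mod_cast hc
      rw [Fintype.sum_bool]
      calc _ ≤ _ := add_le_add (key true) (key false)
        _ = ((t.atNodes (insAt (i, true) false)).countP
          (fun t' => decide (lev i t'.leaves = 0)) : ℝ≥0) +
          (t.atNodes (insAt (i, true) true)).countP (fun t' => decide (lev i t'.leaves = 0)) +
            2 * M * (1 / t.size + 5 * ν) := by ring
        _ = NN i t + 2 * M * (1 / t.size + 5 * ν) := by rw [hc']
        _ = 2 * M * (0 + 5 * ν) + (NN i t + 2 * M / t.size) := by ring
        _ ≤ _ := by gcongr; exact zero_le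
  -- total
  have hsplit : sumI t (W i) ≤ ∑ l : Lit n, (2 * M * (ρ + 5 * ν) +
      if l = (i, true) then (NN i t + 2 * M / t.size : ℝ≥0) else 0) := by
    unfold sumI
    apply Finset.sum_le_sum
    intro l _
    by_cases hl : l = (i, true)
    · subst hl
      simpa using hpos
    · rw [if_neg hl, add_zero]
      calc _ ≤ ∑ r : Bool, M * (ρ + 5 * ν) := Finset.sum_le_sum fun r _ => hoth l hl r
        _ = 2 * M * (ρ + 5 * ν) := by simp; ring
  refine le_trans hsplit ?_
  rw [Finset.sum_add_distrib, Finset.sum_const, Finset.sum_ite_eq' Finset.univ (i, true)]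
  simp only [Finset.mem_univ, if_true]
  have hcard : (Finset.univ : Finset (Lit n)).card = 2 * n := by
    simp [Lit, mul_comm]
  rw [hcard, nsmul_eq_mul]
  have hfin : (NN i t + 2 * M / t.size : ℝ≥0) ≤ 4 * n * M * ν := by
    rw [hν]
    unfold nu
    have e : (4 * n * M * (NN i t / (n * t.size)) : ℝ≥0) = 4 * (M * NN i t) / t.size := by
      field_simp
    rw [e]
    have h1 : (NN i t : ℝ≥0) ≤ (M * NN i t) / t.size := by
      rw [le_div_iff₀ hT']
      calc (NN i t : ℝ≥0) * t.size ≤ NN i t * M := by gcongr
        _ = M * NN i t := by ring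
    have h2 : (2 * M / t.size : ℝ≥0) ≤ 2 * (M * NN i t) / t.size := by
      gcongr
      calc (M : ℝ≥0) = M * 1 := by ring
        _ ≤ M * NN i t := by gcongr
    calc (NN i t + 2 * M / t.size : ℝ≥0) ≤ (M * NN i t) / t.size + 2 * (M * NN i t) / t.size :=
          add_le_add h1 h2
      _ = 3 * (M * NN i t) / t.size := by ring
      _ ≤ 4 * (M * NN i t) / t.size := by gcongr; norm_num
  calc _ ≤ ((2 * n : ℕ) : ℝ≥0) * (2 * M * (ρ + 5 * ν)) + 4 * n * M * ν := by gcongr
    _ = _ := by push_cast; ring


theorem extra_rho (T k : ℕ) (hT : 1 ≤ T) : extra (rho T) k ≤ 2 * T * rho T k := by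
  have hT' : (0 : ℝ≥0) < T := by exact_mod_cast hT
  unfold extra
  by_cases h1 : k = 1
  · subst h1
    simp only [if_true, rho]
    norm_num
    have e : (2 * (T : ℝ≥0) * (T : ℝ≥0)⁻¹) = 2 := by field_simp
    rw [e]; norm_num
  · rw [if_neg h1]
    by_cases h2 : k = 2
    · subst h2
      simp only [if_true, rho]
      norm_num
      have e : (2 * (T : ℝ≥0) * ((T : ℝ≥0) ^ 2)⁻¹) = 2 * (T : ℝ≥0)⁻¹ := by field_simp
      rw [e]
    · rw [if_neg h2]; exact zero_le

theorem rho_three (T : ℕ) : rho T 3 = 0 := by simp [rho]

open Classical in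
theorem sumS_W [NeZero n] (t : Tree n) :
    sumS t (W i) ≤ (2 * n * (2 * t.size - 1 : ℕ)) *
      (3 * rho t.size (lev i t.leaves) + 6 * nu i t) := by
  have hT := t.size_pos
  have hn : n ≠ 0 := NeZero.ne n
  have hn' : (0 : ℝ≥0) < n := by exact_mod_cast Nat.pos_of_ne_zero hn
  have hT' : (0 : ℝ≥0) < t.size := by exact_mod_cast hT
  have hlen : ∀ φ, (t.atNodes φ).length = 2 * t.size - 1 := by
    intro φ; have := length_atNodes φ t; omega
  set M : ℕ := 2 * t.size - 1 with hM
  have hMT : (t.size : ℝ≥0) ≤ M := by
    have : t.size ≤ M := by omega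
    exact_mod_cast this
  have hM2 : (M : ℝ≥0) + 1 = 2 * t.size := by
    have : M + 1 = 2 * t.size := by omega
    exact_mod_cast this
  have hN : (1 : ℝ≥0) ≤ NN i t := by exact_mod_cast NN_pos i t
  set ρ := rho t.size (lev i t.leaves) with hρ
  set ν := nu i t with hν
  have hsplit : ∀ l : Lit n,
      ((t.atNodes (subAt l)).map (fun t' => W i (some t'))).sum =
      ((t.atNodes (subAt l)).map (fun t' => rho t.size (lev i t'.leaves))).sum +
      ((t.atNodes (subAt l)).map (fun t' => nu i t')).sum := by
    intro l
    rw [← List.sum_map_add]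
    congr 1
    apply List.map_congr_left
    intro t' ht'
    rw [W_some, sub_size l t t' ht']
  -- N part
  have hNpart : ∀ l, ((t.atNodes (subAt l)).map (fun t' => nu i t')).sum ≤ 5 * M * ν := by
    intro l
    have h1 : ((t.atNodes (subAt l)).map (fun t' => nu i t')).sum =
        (((t.atNodes (subAt l)).map (NN i)).sum : ℕ) / (n * t.size) := by
      rw [Nat.cast_list_sum, List.map_map, div_eq_mul_inv, ← List.sum_map_mul_right]
      congr 1
      apply List.map_congr_left
      intro t' ht'
      unfold nu
      rw [sub_size l t t' ht', div_eq_mul_inv]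
      rfl
    rw [h1]
    have h2 := sub_NN_sum i l t
    have h3 : ((((t.atNodes (subAt l)).map (NN i)).sum : ℕ) : ℝ≥0) ≤
        M * NN i t + 4 * t.size := by exact_mod_cast h2
    rw [hν]
    unfold nu
    calc ((((t.atNodes (subAt l)).map (NN i)).sum : ℕ) : ℝ≥0) / (n * t.size)
        ≤ (M * NN i t + 4 * t.size) / (n * t.size) := by gcongr
      _ ≤ (M * NN i t + 4 * (M * NN i t)) / (n * t.size) := by
          gcongr
          calc (t.size : ℝ≥0) ≤ M := hMT
            _ = M * 1 := by ring
            _ ≤ M * NN i t := by gcongr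
      _ = 5 * M * (NN i t / (n * t.size)) := by ring
  -- rho part
  have hoth : ∀ l : Lit n, l ≠ (i, true) →
      ((t.atNodes (subAt l)).map (fun t' => rho t.size (lev i t'.leaves))).sum ≤ 3 * M * ρ := by
    intro l hl
    have h1 := sum_sub l t (fun w => rho t.size (lev i w))
    have h2 := set_sum i t.leaves l hl (rho t.size) (rho_antitone _ hT) (rho_three _)
    have h3 := extra_rho t.size (lev i t.leaves) hT
    have hsz : t.leaves.length = t.size := rfl
    rw [hsz] at h2
    have h4 : ((t.atNodes (subAt l)).map (fun t' => rho t.size (lev i t'.leaves))).sum + ρ ≤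
        M * ρ + ρ + 2 * t.size * ρ := by
      calc _ = t.size * ρ + ∑ j ∈ Finset.range t.size, rho t.size (lev i (t.leaves.set j l)) := h1
        _ ≤ t.size * ρ + (t.size * ρ + 2 * t.size * ρ) := by gcongr; exact le_trans h2 (by gcongr)
        _ = (2 * t.size) * ρ + 2 * t.size * ρ := by ring
        _ = (M + 1) * ρ + 2 * t.size * ρ := by rw [hM2]
        _ = _ := by ring
    have h5 : ((t.atNodes (subAt l)).map (fun t' => rho t.size (lev i t'.leaves))).sum ≤
        M * ρ + 2 * t.size * ρ := by
      have : ((t.atNodes (subAt l)).map (fun t' => rho t.size (lev i t'.leaves))).sum + ρ ≤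
          (M * ρ + 2 * t.size * ρ) + ρ := by
        calc _ ≤ _ := h4
          _ = _ := by ring
      exact le_of_add_le_add_right this
    calc _ ≤ _ := h5
      _ ≤ M * ρ + 2 * M * ρ := by gcongr
      _ = _ := by ring
  have hpos : ((t.atNodes (subAt (i, true))).map (fun t' => rho t.size (lev i t'.leaves))).sum ≤
      M * ρ + (NN i t + M / t.size) := by
    by_cases h0 : lev i t.leaves = 0
    · have hρ1 : ρ = 1 := by rw [hρ, h0]; simp [rho]
      calc _ ≤ ((t.atNodes (subAt (i, true))).length : ℝ≥0) * 1 := by
            apply list_sum_le_card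
            intro t' ht'
            exact rho_le_one _ _ hT
        _ = M * ρ := by rw [hlen, hρ1]
        _ ≤ _ := le_self_add
    · have key : ((t.atNodes (subAt (i, true))).map
          (fun t' => rho t.size (lev i t'.leaves))).sum ≤
          (t.atNodes (subAt (i, true))).countP (fun t' => decide (lev i t'.leaves = 0)) +
            M * (1 / t.size) := by
        rw [← hlen (subAt (i, true))]
        apply list_sum_le_count
        intro t' ht'
        by_cases h1 : lev i t'.leaves = 0
        · simp only [h1, decide_true, if_true]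
          refine le_trans (rho_le_one _ _ hT) le_self_add
        · simp only [h1, decide_false, Bool.false_eq_true, if_false, zero_add]
          exact rho_le_inv _ _ hT h1
      have hc := sub_count i t h0
      have hc' : ((t.atNodes (subAt (i, true))).countP
          (fun t' => decide (lev i t'.leaves = 0)) : ℝ≥0) ≤ NN i t := by exact_mod_cast hc
      calc _ ≤ _ := key
        _ ≤ NN i t + M * (1 / t.size) := by gcongr
        _ = 0 + (NN i t + M / t.size) := by ring
        _ ≤ _ := by gcongr; exact zero_le
  have htot : sumS t (W i) ≤ ∑ l : Lit n, (M * (3 * ρ + 5 * ν) +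
      if l = (i, true) then (NN i t + M / t.size : ℝ≥0) else 0) := by
    unfold sumS
    apply Finset.sum_le_sum
    intro l _
    rw [hsplit]
    by_cases hl : l = (i, true)
    · subst hl
      simp only [if_true]
      calc _ ≤ (M * ρ + (NN i t + M / t.size)) + 5 * M * ν := add_le_add hpos (hNpart _)
        _ = M * (1 * ρ + 5 * ν) + (NN i t + M / t.size) := by ring
        _ ≤ M * (3 * ρ + 5 * ν) + (NN i t + M / t.size) := by gcongr; norm_num
    · rw [if_neg hl, add_zero]
      calc _ ≤ 3 * M * ρ + 5 * M * ν := add_le_add (hoth l hl) (hNpart l)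
        _ = M * (3 * ρ + 5 * ν) := by ring
  refine le_trans htot ?_
  rw [Finset.sum_add_distrib, Finset.sum_const, Finset.sum_ite_eq' Finset.univ (i, true)]
  simp only [Finset.mem_univ, if_true]
  have hcard : (Finset.univ : Finset (Lit n)).card = 2 * n := by
    simp [Lit, mul_comm]
  rw [hcard, nsmul_eq_mul]
  have hfin : (NN i t + M / t.size : ℝ≥0) ≤ 2 * n * M * ν := by
    rw [hν]
    unfold nu
    have e : (2 * n * M * (NN i t / (n * t.size)) : ℝ≥0) = 2 * (M * NN i t) / t.size := by
      field_simp
    rw [e]
    have h1 : (NN i t : ℝ≥0) ≤ (M * NN i t) / t.size := by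
      rw [le_div_iff₀ hT']
      calc (NN i t : ℝ≥0) * t.size ≤ NN i t * M := by gcongr
        _ = M * NN i t := by ring
    have h2 : (M / t.size : ℝ≥0) ≤ (M * NN i t) / t.size := by
      gcongr
      calc (M : ℝ≥0) = M * 1 := by ring
        _ ≤ M * NN i t := by gcongr
    calc (NN i t + M / t.size : ℝ≥0) ≤ (M * NN i t) / t.size + (M * NN i t) / t.size :=
          add_le_add h1 h2
      _ = 2 * (M * NN i t) / t.size := by ring
  calc _ ≤ ((2 * n : ℕ) : ℝ≥0) * (M * (3 * ρ + 5 * ν)) + 2 * n * M * ν := by gcongr
    _ = _ := by push_cast; ring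

theorem sumD_W [NeZero n] (t : Tree n) :
    sumD t (W i) ≤ t.size * (8 * rho t.size (lev i t.leaves) + 6 * nu i t) := by
  have hT := t.size_pos
  have hn : n ≠ 0 := NeZero.ne n
  have hn' : (0 : ℝ≥0) < n := by exact_mod_cast Nat.pos_of_ne_zero hn
  have hT' : (0 : ℝ≥0) < t.size := by exact_mod_cast hT
  have hN : (1 : ℝ≥0) ≤ NN i t := by exact_mod_cast NN_pos i t
  by_cases h1 : t.size = 1
  · have hd : ∀ X ∈ t.deletions, X = none := by
      intro X hX
      have := del_size t X hX
      cases X with
      | none => rfl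
      | some s =>
        have h2 := s.size_pos
        unfold size leaves at this
        unfold Tree.size at h2 h1 this
        simp only at this
        omega
    have h2 : sumD t (W i) ≤ t.deletions.length * (1 / n) := by
      apply list_sum_le_card
      intro X hX
      rw [hd X hX]
      exact le_refl _
    rw [length_deletions, h1] at h2
    rw [h1]
    calc _ ≤ _ := h2
      _ = 0 + 1 * (1 / (n : ℝ≥0)) := by push_cast; ring
      _ ≤ 8 * rho 1 (lev i t.leaves) + 6 * nu i t := by
          apply add_le_add (zero_le)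
          unfold nu
          rw [h1]
          have : (1 : ℝ≥0) / n ≤ NN i t / (n * (1 : ℕ)) := by
            push_cast; rw [mul_one]; gcongr
          gcongr
          norm_num
      _ = _ := by push_cast; ring
  · have h2 : 2 ≤ t.size := by omega
    have hT1 : 1 ≤ t.size - 1 := by omega
    set T1 : ℕ := t.size - 1 with hT1def
    have hT1' : (0 : ℝ≥0) < T1 := by exact_mod_cast hT1
    have hTT : (t.size : ℝ≥0) ≤ 2 * T1 := by exact_mod_cast (by omega : t.size ≤ 2 * T1)
    set k := lev i t.leaves with hk
    have hk3 : k ≤ 3 := lev_le i _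
    have hsplit : sumD t (W i) = (t.deletions.map (fun X => rho T1 (lev i (leaves X)))).sum +
        (t.deletions.map (fun X => (NS i X : ℝ≥0) / (n * T1))).sum := by
      unfold sumD
      rw [← List.sum_map_add]
      congr 1
      apply List.map_congr_left
      intro X hX
      have hs := del_size t X hX
      cases X with
      | none =>
        simp only [size, leaves, List.length_nil] at hs
        omega
      | some s =>
        have hs' : s.size = T1 := by
          have : size (some s) = s.size := rfl
          omega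
        rw [W_some, hs']
        unfold nu
        rw [hs']
        rfl
    have hρpart : (t.deletions.map (fun X => rho T1 (lev i (leaves X)))).sum ≤
        t.size * (8 * rho t.size k) := by
      rw [sum_deletions t (fun w => rho T1 (lev i w))]
      have h3 := erase_sum i t.leaves (rho T1) (rho_antitone _ hT1) (rho_three _)
      have hsz : t.leaves.length = t.size := rfl
      rw [hsz] at h3
      refine le_trans h3 ?_
      rw [← hk]
      interval_cases k
      · simp [rho, extra]
        calc (t.size : ℝ≥0) = t.size * 1 := by ring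
          _ ≤ t.size * 8 := by gcongr; norm_num
      · simp only [rho, extra]
        norm_num
        have e : (t.size : ℝ≥0) * (8 * (t.size : ℝ≥0)⁻¹) = 8 := by field_simp
        rw [e]
        have : (t.size : ℝ≥0) * (T1 : ℝ≥0)⁻¹ ≤ 2 := by
          rw [← div_eq_mul_inv, div_le_iff₀ hT1']; exact hTT
        calc _ ≤ (2 : ℝ≥0) + 1 := by gcongr
          _ ≤ 8 := by norm_num
      · simp only [rho, extra]
        norm_num
        have e : (t.size : ℝ≥0) * (8 * ((t.size : ℝ≥0) ^ 2)⁻¹) = 8 / t.size := by field_simp
        rw [e]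
        have e1 : (t.size : ℝ≥0) * ((T1 : ℝ≥0) ^ 2)⁻¹ ≤ 4 / t.size := by
          rw [← div_eq_mul_inv, div_le_div_iff₀ (by positivity) hT']
          calc (t.size : ℝ≥0) * t.size ≤ (2 * T1) * (2 * T1) := by gcongr
            _ = 4 * T1 ^ 2 := by ring
        have e2 : 2 * (T1 : ℝ≥0)⁻¹ ≤ 4 / t.size := by
          rw [← div_eq_mul_inv, div_le_div_iff₀ hT1' hT']
          calc 2 * (t.size : ℝ≥0) ≤ 2 * (2 * T1) := by gcongr
            _ = 4 * T1 := by ring
        calc _ ≤ 4 / (t.size : ℝ≥0) + 4 / t.size := add_le_add e1 e2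
          _ = 8 / t.size := by ring
      · simp [rho, extra]
    have hNpart : (t.deletions.map (fun X => (NS i X : ℝ≥0) / (n * T1))).sum ≤
        t.size * (6 * nu i t) := by
      have h3 : (t.deletions.map (fun X => (NS i X : ℝ≥0) / (n * T1))).sum =
          ((t.deletions.map (NS i)).sum : ℕ) / (n * T1) := by
        rw [Nat.cast_list_sum, List.map_map, div_eq_mul_inv, ← List.sum_map_mul_right]
        congr 1
      rw [h3]
      have h4 : (((t.deletions.map (NS i)).sum : ℕ) : ℝ≥0) ≤ t.size * NN i t + 4 * T1 := by
        exact_mod_cast del_NN_sum i t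
      unfold nu
      have e : (t.size : ℝ≥0) * (6 * (NN i t / (n * t.size))) = 6 * NN i t / n := by
        field_simp
      rw [e]
      calc (((t.deletions.map (NS i)).sum : ℕ) : ℝ≥0) / (n * T1)
          ≤ (t.size * NN i t + 4 * T1) / (n * T1) := by gcongr
        _ ≤ ((2 * T1) * NN i t + 4 * T1 * NN i t) / (n * T1) := by
            have h5 : (4 * T1 : ℝ≥0) ≤ 4 * T1 * NN i t := by
              calc (4 * T1 : ℝ≥0) = 4 * T1 * 1 := by ring
                _ ≤ 4 * T1 * NN i t := by gcongr
            have h6 : (t.size : ℝ≥0) * NN i t ≤ (2 * T1) * NN i t := by gcongr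
            exact div_le_div_of_nonneg_right (add_le_add h6 h5) (by positivity)
        _ = 6 * NN i t / n := by field_simp; ring
    rw [hsplit]
    calc _ ≤ _ := add_le_add hρpart hNpart
      _ = _ := by ring

theorem EhN_W [NeZero n] (t : Tree n) : EhN t (W i) ≤ 8 * W i (some t) := by
  have hT := t.size_pos
  have hn : n ≠ 0 := NeZero.ne n
  have hn' : (0 : ℝ≥0) < n := by exact_mod_cast Nat.pos_of_ne_zero hn
  have hT' : (0 : ℝ≥0) < t.size := by exact_mod_cast hT
  have hM' : (0 : ℝ≥0) < (2 * t.size - 1 : ℕ) := by exact_mod_cast (by omega : 0 < 2 * t.size - 1)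
  have h1 := sumI_W i t
  have h2 := sumD_W i t
  have h3 := sumS_W i t
  set ρ := rho t.size (lev i t.leaves) with hρ
  set ν := nu i t with hν
  rw [W_some, ← hρ, ← hν]
  unfold EhN
  have h1' : sumI t (W i) / (4 * n * (2 * t.size - 1 : ℕ)) ≤ ρ + 6 * ν := by
    rw [div_le_iff₀ (by positivity)]
    calc _ ≤ _ := h1
      _ = _ := by ring
  have h2' : sumD t (W i) / t.size ≤ 8 * ρ + 6 * ν := by
    rw [div_le_iff₀ (by positivity)]
    calc _ ≤ _ := h2
      _ = _ := by ring
  have h3' : sumS t (W i) / (2 * n * (2 * t.size - 1 : ℕ)) ≤ 3 * ρ + 6 * ν := by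
    rw [div_le_iff₀ (by positivity)]
    calc _ ≤ _ := h3
      _ = _ := by ring
  rw [div_le_iff₀ (by norm_num)]
  calc _ ≤ (ρ + 6 * ν) + (8 * ρ + 6 * ν) + (3 * ρ + 6 * ν) :=
        add_le_add (add_le_add h1' h2') h3'
    _ = 12 * ρ + 18 * ν := by ring
    _ ≤ 24 * ρ + 24 * ν := by gcongr <;> norm_num
    _ = _ := by ring

theorem Ex_hvl_W [NeZero n] (X : State n) :
    Ex (hvl X) (fun Y => (W i Y : ℝ≥0∞)) ≤ 8 * (W i X : ℝ≥0∞) := by
  cases X with
  | some t =>
    rw [hvl_Ex]
    have := EhN_W i t
    exact_mod_cast this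
  | none =>
    have hn : n ≠ 0 := NeZero.ne n
    have hn' : (0 : ℝ≥0) < n := by exact_mod_cast Nat.pos_of_ne_zero hn
    unfold hvl
    simp only
    rw [Ex_map, Ex_uniform]
    rw [← ENNReal.ofNNReal_finsetSum]
    have hcard : Fintype.card (Lit n) = 2 * n := by
      simp [Lit, mul_comm]
    rw [hcard, coe_div_nat _ _ (by omega)]
    have : (∑ l : Lit n, W i (some (Tree.leaf l))) ≤ 5 := by
      have h1 : ∀ l : Lit n, W i (some (Tree.leaf l)) ≤ 2 / n + if l = (i, true) then 1 else 0 := by
        intro l
        have hx : (NN i (Tree.leaf l) : ℝ≥0) ≤ 2 := by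
          have : NN i (Tree.leaf l) ≤ 2 := by unfold NN; split_ifs <;> omega
          exact_mod_cast this
        rw [W_some]
        unfold nu
        rw [Tree.size_leaf]
        have hν : (NN i (Tree.leaf l) : ℝ≥0) / (n * (1 : ℕ)) ≤ 2 / n := by
          push_cast; rw [mul_one]; gcongr
        by_cases hl : l = (i, true)
        · rw [if_pos hl, add_comm]
          exact add_le_add hν (rho_le_one _ _ (le_refl _))
        · rw [if_neg hl]
          have : rho 1 (lev i (Tree.leaf l).leaves) = 0 := by
            have : lev i (Tree.leaf l).leaves = 3 := by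
              simp only [Tree.leaves, lev_cons]
              unfold litAct
              rw [if_neg hl]
              split_ifs <;> rfl
            rw [this, rho_three]
          rw [this, zero_add, add_zero]
          exact hν
      calc _ ≤ ∑ l : Lit n, (2 / (n : ℝ≥0) + if l = (i, true) then 1 else 0) :=
            Finset.sum_le_sum fun l _ => h1 l
        _ = 5 := by
            rw [Finset.sum_add_distrib, Finset.sum_const, Finset.sum_ite_eq' Finset.univ (i, true)]
            simp only [Finset.mem_univ, if_true]
            rw [Finset.card_univ, hcard, nsmul_eq_mul]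
            push_cast
            field_simp
            norm_num
    have h2 : (∑ l : Lit n, W i (some (Tree.leaf l))) / ((2 * n : ℕ) : ℝ≥0) ≤ 8 * W i none := by
      unfold W at this ⊢
      simp only at this ⊢
      push_cast
      rw [div_le_iff₀ (by positivity)]
      calc _ ≤ (5 : ℝ≥0) := this
        _ ≤ 16 := by norm_num
        _ = 8 * (1 / n) * (2 * n) := by field_simp; norm_num
    exact_mod_cast h2

theorem Ex_hvlIter_W [NeZero n] (k : ℕ) (X : State n) :
    Ex (hvlIter k X) (fun Y => (W i Y : ℝ≥0∞)) ≤ 8 ^ k * (W i X : ℝ≥0∞) := by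
  induction k generalizing X with
  | zero => simp [hvlIter, Ex_pure]
  | succ k ih =>
    unfold hvlIter
    rw [Ex_bind]
    calc _ ≤ Ex (hvl X) (fun Y => 8 ^ k * (W i Y : ℝ≥0∞)) := Ex_mono fun Y => ih Y
      _ = 8 ^ k * Ex (hvl X) (fun Y => (W i Y : ℝ≥0∞)) := Ex_const_mul _ _ _
      _ ≤ 8 ^ k * (8 * (W i X : ℝ≥0∞)) := by gcongr; exact Ex_hvl_W i X
      _ = 8 ^ (k + 1) * (W i X : ℝ≥0∞) := by ring

end

end Pool.Agent.Lib.MP_3edecc_lc
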