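import Pool.Agent.Lib.MP_3edecc_lc.Trees

/-!
# The number of good insertion places
-/

set_option autoImplicit false

open scoped ENNReal NNReal

namespace Pool.Agent.Lib.MP_3edecc_lc

section
variable {n : ℕ} (i : Fin n)

/-- The number of pairs (node, side) such that no negated `x_i` is to the left of the place. -/
def NN : Tree n → ℕ
  | .leaf l => if l = (i, false) then 1 else 2
  | .J a b => 1 + (if (i, false) ∈ a.leaves ++ b.leaves then 0 else 1) + NN a +
      (if (i, false) ∈ a.leaves then 0 else NN b)

theorem NN_pos (t : Tree n) : 1 ≤ NN i t := by
  cases t with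
  | leaf l => unfold NN; split_ifs <;> omega
  | J a b => unfold NN; omega

theorem NN_le (t : Tree n) : NN i t + 2 ≤ 4 * t.size := by
  induction t with
  | leaf l => simp only [Tree.size_leaf]; unfold NN; split_ifs <;> omega
  | J a b iha ihb =>
    rw [Tree.size_J]
    unfold NN
    split_ifs <;> omega

theorem NN_eq (t : Tree n) (h : (i, false) ∉ t.leaves) : NN i t + 2 = 4 * t.size := by
  induction t with
  | leaf l =>
    simp only [Tree.leaves, List.mem_singleton] at h
    simp only [Tree.size_leaf]; unfold NN
    rw [if_neg (fun e => h (Eq.symm e))]
  | J a b iha ihb =>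
    rw [Tree.size_J]
    simp only [Tree.leaves] at h
    have h' := h
    simp only [List.mem_append, not_or] at h'
    have ha := iha h'.1
    have hb := ihb h'.2
    unfold NN
    rw [if_neg h, if_neg h'.1]
    omega

theorem idxOf_lt_NN (t : Tree n) (h : (i, false) ∈ t.leaves) :
    t.leaves.idxOf (i, false) + 1 ≤ NN i t := by
  induction t with
  | leaf l =>
    simp only [Tree.leaves, List.mem_singleton] at h
    subst h
    simp [Tree.leaves, NN]
  | J a b iha ihb =>
    simp only [Tree.leaves] at h ⊢
    unfold NN
    by_cases ha : (i, false) ∈ a.leaves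
    · rw [List.idxOf_append_of_mem ha]
      have := iha ha
      omega
    · rw [List.idxOf_append_of_notMem ha]
      have hb : (i, false) ∈ b.leaves := by
        rcases List.mem_append.1 h with h' | h'
        · exact absurd h' ha
        · exact h'
      have := ihb hb
      have h2 := NN_eq i a ha
      have h3 := a.size_pos
      rw [if_neg ha]
      have h4 : a.leaves.length = a.size := rfl
      omega

/-! ### Insertion -/

theorem ins_leaves (l : Lit n) (r : Bool) (t : Tree n) :
    ∀ t' ∈ t.atNodes (insAt l r), ∃ u v, t.leaves = u ++ v ∧ t'.leaves = u ++ l :: v := by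
  induction t with
  | leaf m =>
    intro t' ht'
    simp only [Tree.atNodes, List.mem_singleton] at ht'
    subst ht'
    unfold insAt
    cases r
    · exact ⟨[], [m], rfl, rfl⟩
    · exact ⟨[m], [], rfl, rfl⟩
  | J a b iha ihb =>
    intro t' ht'
    simp only [Tree.atNodes, List.mem_cons, List.mem_append, List.mem_map] at ht'
    rcases ht' with h | ⟨a', ha', h⟩ | ⟨b', hb', h⟩
    · subst h
      unfold insAt
      cases r
      · exact ⟨[], a.leaves ++ b.leaves, rfl, rfl⟩
      · exact ⟨a.leaves ++ b.leaves, [], by simp [Tree.leaves], rfl⟩
    · subst h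
      obtain ⟨u, v, h1, h2⟩ := iha a' ha'
      exact ⟨u, v ++ b.leaves, by simp [Tree.leaves, h1], by simp [Tree.leaves, h2]⟩
    · subst h
      obtain ⟨u, v, h1, h2⟩ := ihb b' hb'
      exact ⟨a.leaves ++ u, v, by simp [Tree.leaves, h1], by simp [Tree.leaves, h2]⟩

theorem ins_size (l : Lit n) (r : Bool) (t t' : Tree n) (h : t' ∈ t.atNodes (insAt l r)) :
    t'.size = t.size + 1 := by
  obtain ⟨u, v, h1, h2⟩ := ins_leaves l r t t' h
  unfold Tree.size
  rw [h1, h2]
  simp
  omega

theorem ins_mem (l : Lit n) (r : Bool) (t t' : Tree n) (h : t' ∈ t.atNodes (insAt l r)) :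
    l ∈ t'.leaves := by
  obtain ⟨u, v, h1, h2⟩ := ins_leaves l r t t' h
  rw [h2]; simp

theorem ins_mem_of (l m : Lit n) (r : Bool) (t t' : Tree n) (h : t' ∈ t.atNodes (insAt l r))
    (hm : m ∈ t.leaves) : m ∈ t'.leaves := by
  obtain ⟨u, v, h1, h2⟩ := ins_leaves l r t t' h
  rw [h2]; rw [h1] at hm
  simp only [List.mem_append, List.mem_cons] at hm ⊢
  tauto

theorem ins_NN (l : Lit n) (r : Bool) (t : Tree n) :
    ∀ t' ∈ t.atNodes (insAt l r), NN i t' ≤ NN i t + 4 := by
  induction t with
  | leaf m =>
    intro t' ht'
    have := NN_le i t'
    rw [ins_size _ _ _ _ ht', Tree.size_leaf] at this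
    have h2 := NN_pos i (Tree.leaf m)
    simp only [Tree.atNodes, List.mem_singleton] at ht'
    subst ht'
    unfold insAt
    cases r
    · simp only [Bool.false_eq_true, ↓reduceIte]
      simp only [NN, Tree.leaves]
      split_ifs <;> omega
    · simp only [↓reduceIte]
      simp only [NN, Tree.leaves]
      split_ifs <;> omega
  | J a b iha ihb =>
    intro t' ht'
    have ht := ht'
    simp only [Tree.atNodes, List.mem_cons, List.mem_append, List.mem_map] at ht'
    rcases ht' with h | ⟨a', ha', h⟩ | ⟨b', hb', h⟩
    · subst h
      have hx : NN i (Tree.leaf l) ≤ 2 := by unfold NN; split_ifs <;> omega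
      unfold insAt
      cases r
      · simp only [Bool.false_eq_true, ↓reduceIte]
        rw [NN]
        split_ifs <;> omega
      · simp only [↓reduceIte]
        rw [NN]
        split_ifs <;> omega
    · subst h
      have h1 := iha a' ha'
      have h2 : (i, false) ∈ a.leaves → (i, false) ∈ a'.leaves := ins_mem_of l _ r a a' ha'
      rw [NN, NN]
      simp only [List.mem_append]
      by_cases ha : (i, false) ∈ a.leaves
      · have := h2 ha
        simp only [ha, this, true_or, if_true]
        omega
      · by_cases hb : (i, false) ∈ b.leaves
        · simp only [ha, hb, or_true, if_true, if_false]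
          split_ifs <;> omega
        · simp only [ha, hb, or_false, if_false]
          split_ifs <;> omega
    · subst h
      have h1 := ihb b' hb'
      have h2 : (i, false) ∈ b.leaves → (i, false) ∈ b'.leaves := ins_mem_of l _ r b b' hb'
      rw [NN, NN]
      simp only [List.mem_append]
      by_cases ha : (i, false) ∈ a.leaves
      · simp only [ha, true_or, if_true]
        omega
      · by_cases hb : (i, false) ∈ b.leaves
        · have := h2 hb
          simp only [ha, hb, this, or_true, if_true, if_false]
          omega
        · simp only [ha, hb, or_false, if_false, false_or]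
          split_ifs <;> omega

/-- inserting a literal different from `x_i` does not decrease the level -/
theorem ins_lev (l : Lit n) (hl : l ≠ (i, true)) (r : Bool) (t t' : Tree n)
    (h : t' ∈ t.atNodes (insAt l r)) : lev i t.leaves ≤ lev i t'.leaves := by
  obtain ⟨u, v, h1, h2⟩ := ins_leaves l r t t' h
  rw [h1, h2, lev_append, lev_append]
  apply act_mono
  rw [lev_cons]
  exact le_litAct i l hl _

open Classical in
theorem ins_count (t : Tree n) (ht : lev i t.leaves ≠ 0) :
    (t.atNodes (insAt (i, true) false)).countP (fun t' => decide (lev i t'.leaves = 0)) +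
    (t.atNodes (insAt (i, true) true)).countP (fun t' => decide (lev i t'.leaves = 0)) =
      NN i t := by
  induction t with
  | leaf m =>
    simp only [Tree.leaves] at ht
    rw [lev_cons] at ht
    have hm : m ≠ (i, true) := by
      rintro rfl; exact ht (litAct_true i _)
    unfold NN
    by_cases h2 : m = (i, false)
    · subst h2
      simp [Tree.atNodes, insAt, Tree.leaves, lev, litAct, up]
    · have e : ∀ k, litAct i m k = k := by
        intro k; unfold litAct; rw [if_neg hm, if_neg h2]
      simp [Tree.atNodes, insAt, Tree.leaves, lev, litAct_true, h2, e]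
  | J a b iha ihb =>
    simp only [Tree.leaves] at ht
    rw [lev_append] at ht
    have ha3 : lev i a.leaves ≠ 0 := by
      intro h
      apply ht
      have := act_mono i a.leaves (lev_le i b.leaves)
      unfold lev at h
      omega
    have iha' := iha ha3
    -- the parts
    have ea : ∀ r, ((a.atNodes (insAt (i, true) r)).map (fun a' => Tree.J a' b)).countP
        (fun t' => decide (lev i t'.leaves = 0)) =
        (a.atNodes (insAt (i, true) r)).countP (fun t' => decide (lev i t'.leaves = 0)) := by
      intro r
      rw [List.countP_map]
      apply List.countP_congr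
      intro a' ha'
      simp only [Function.comp, Tree.leaves, decide_eq_true_eq]
      rw [lev_append, act_eq_of_pos i a'.leaves (ins_mem _ _ _ _ ha') _ 3]
      exact Iff.rfl
    have eb : ∀ r, ((b.atNodes (insAt (i, true) r)).map (fun b' => Tree.J a b')).countP
        (fun t' => decide (lev i t'.leaves = 0)) =
        if (i, false) ∈ a.leaves then 0 else
        (b.atNodes (insAt (i, true) r)).countP (fun t' => decide (lev i t'.leaves = 0)) := by
      intro r
      rw [List.countP_map]
      by_cases hneg : (i, false) ∈ a.leaves
      · rw [if_pos hneg, List.countP_eq_zero]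
        intro b' hb'
        simp only [Function.comp, Tree.leaves, decide_eq_true_eq]
        rw [lev_append]
        exact act_ne_zero_of_neg i a.leaves hneg ha3 _
      · rw [if_neg hneg]
        apply List.countP_congr
        intro b' hb'
        simp only [Function.comp, Tree.leaves, decide_eq_true_eq]
        rw [lev_append, act_eq_self i a.leaves (not_pos_of i a.leaves hneg ha3) hneg]
    have e0 : decide (lev i (insAt (i, true) false (Tree.J a b)).leaves = 0) = true := by
      simp [insAt, Tree.leaves, lev, litAct_true]
    have e1 : decide (lev i (insAt (i, true) true (Tree.J a b)).leaves = 0) =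
        decide ((i, false) ∉ a.leaves ++ b.leaves) := by
      simp only [insAt, if_true, Tree.leaves]
      rw [lev_append]
      have : lev i [(i, true)] = 0 := by simp [lev, litAct_true]
      rw [this]
      apply decide_eq_decide.2
      constructor
      · intro h hneg
        refine act_ne_zero_of_neg i (a.leaves ++ b.leaves) hneg ?_ 0 h
        rw [act_append]; exact ht
      · intro h
        exact act_zero_of_noNeg i _ h
    simp only [Tree.atNodes, List.countP_cons, List.countP_append, ea, eb, e0, e1]
    unfold NN
    by_cases hneg : (i, false) ∈ a.leaves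
    · have hab : (i, false) ∈ a.leaves ++ b.leaves := List.mem_append_left _ hneg
      simp only [hneg, hab, if_true, not_true_eq_false, decide_false]
      simp
      omega
    · have hb3 : lev i b.leaves ≠ 0 := by
        rw [act_eq_self i a.leaves (not_pos_of i a.leaves hneg ha3) hneg] at ht
        exact ht
      have ihb' := ihb hb3
      simp only [hneg, if_false]
      by_cases hab : (i, false) ∈ a.leaves ++ b.leaves
      · simp only [hab, if_true, not_true_eq_false, decide_false]
        simp
        omega
      · simp only [hab, if_false, not_false_eq_true, decide_true, if_true]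
        omega

end

end Pool.Agent.Lib.MP_3edecc_lc
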