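import Pool.Agent.Lib.MP_3edecc_lc.DriftW

/-!
# Lower bound for the improvement probability
-/

set_option autoImplicit false

open scoped ENNReal NNReal

namespace Pool.Agent.Lib.MP_3edecc_lc

section
variable {n : ℕ}

open Classical in
/-- the set of unexpressed variables -/
noncomputable def unexp (X : State n) : Finset (Fin n) :=
  Finset.univ.filter (fun i => lev i (leaves X) ≠ 0)

theorem mem_unexp (X : State n) (i : Fin n) : i ∈ unexp X ↔ lev i (leaves X) ≠ 0 := by
  classical
  simp [unexp]

open Classical in
theorem fitness_eq (X : State n) :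
    fitness X = (Finset.univ.filter (fun i : Fin n => lev i (leaves X) = 0)).card := by
  unfold fitness
  congr 1
  ext i
  simp only [Finset.mem_filter, Finset.mem_univ, true_and]
  exact expressed_iff i _

theorem fitness_add (X : State n) : fitness X + (unexp X).card = n := by
  classical
  rw [fitness_eq]
  unfold unexp
  have := Finset.card_filter_add_card_filter_not (s := (Finset.univ : Finset (Fin n)))
    (fun i : Fin n => lev i (leaves X) = 0)
  simpa using this

theorem optimal_iff (X : State n) : Optimal X ↔ (unexp X).card = 0 := by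
  have := fitness_add X
  unfold Optimal
  omega

/-- the fitness increases if one variable gets expressed and no other is affected -/
theorem fitness_lt (X Y : State n) (i : Fin n) (hi : lev i (leaves X) ≠ 0)
    (hi' : lev i (leaves Y) = 0)
    (h : ∀ k, k ≠ i → lev k (leaves Y) = lev k (leaves X)) : fitness X < fitness Y := by
  classical
  rw [fitness_eq, fitness_eq]
  apply Finset.card_lt_card
  rw [Finset.ssubset_iff_of_subset]
  · exact ⟨i, by simp [hi'], by simp [hi]⟩
  · intro k hk
    simp only [Finset.mem_filter, Finset.mem_univ, true_and] at hk ⊢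
    by_cases e : k = i
    · subst e; exact hi'
    · rw [h k e]; exact hk

theorem exists_of_fitness_lt (X Y : State n) (h : fitness X < fitness Y) :
    ∃ i ∈ unexp X, lev i (leaves Y) = 0 := by
  classical
  by_contra hcon
  push Not at hcon
  apply absurd h
  rw [not_lt, fitness_eq, fitness_eq]
  apply Finset.card_le_card
  intro k hk
  simp only [Finset.mem_filter, Finset.mem_univ, true_and] at hk ⊢
  by_contra hk'
  exact hcon k ((mem_unexp X k).2 hk') hk

open Classical in
/-- indicator of an improvement -/
noncomputable def ind (X Y : State n) : ℝ≥0 := if fitness X < fitness Y then 1 else 0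

theorem ind_le_sum_W (X Y : State n) : ind X Y ≤ ∑ i ∈ unexp X, W i Y := by
  unfold ind
  split_ifs with h
  · obtain ⟨i, hi, hi'⟩ := exists_of_fitness_lt X Y h
    calc (1 : ℝ≥0) ≤ W i Y := one_le_W i Y hi'
      _ ≤ _ := Finset.single_le_sum (f := fun i => W i Y) (fun _ _ => zero_le) hi
  · exact zero_le

theorem litAct_other (i k : Fin n) (h : k ≠ i) (b : Bool) (m : ℕ) : litAct k (i, b) m = m := by
  unfold litAct
  have h1 : ¬ ((i, b) = (k, true)) := by
    intro e; exact h (Prod.ext_iff.1 e).1.symm
  have h2 : ¬ ((i, b) = (k, false)) := by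
    intro e; exact h (Prod.ext_iff.1 e).1.symm
  rw [if_neg h1, if_neg h2]

theorem ins_lev_other (i k : Fin n) (h : k ≠ i) (b r : Bool) (t t' : Tree n)
    (ht' : t' ∈ t.atNodes (insAt (i, b) r)) : lev k t'.leaves = lev k t.leaves := by
  obtain ⟨u, v, h1, h2⟩ := ins_leaves (i, b) r t t' ht'
  rw [h1, h2, lev_append, lev_append, lev_cons, litAct_other i k h]

theorem exists_erase (i : Fin n) (w : List (Lit n)) (h : lev i w = 1) :
    ∃ j, ∃ hj : j < w.length, w[j] = (i, false) ∧ lev i (w.eraseIdx j) = 0 := by
  induction w with
  | nil => simp [lev] at h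
  | cons l w ih =>
    rw [lev_cons] at h
    unfold litAct at h
    by_cases h1 : l = (i, true)
    · rw [if_pos h1] at h; omega
    · rw [if_neg h1] at h
      by_cases h2 : l = (i, false)
      · rw [if_pos h2] at h
        refine ⟨0, by simp, by simpa using h2, ?_⟩
        have hk := lev_le i w
        simp only [List.eraseIdx_cons_zero]
        interval_cases hl : lev i w <;> simp [up] at h ⊢
      · rw [if_neg h2] at h
        obtain ⟨j, hj, h3, h4⟩ := ih h
        refine ⟨j + 1, by simpa using hj, by simpa using h3, ?_⟩
        simp only [List.eraseIdx_cons_succ, lev_cons]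
        unfold litAct
        rw [if_neg h1, if_neg h2]
        exact h4

theorem erase_lev_other (k : Fin n) (w : List (Lit n)) (j : ℕ) (hj : j < w.length)
    (h : (w[j]).1 ≠ k) : lev k (w.eraseIdx j) = lev k w := by
  induction w generalizing j with
  | nil => simp at hj
  | cons l w ih =>
    cases j with
    | zero =>
      simp only [List.getElem_cons_zero] at h
      simp only [List.eraseIdx_cons_zero, lev_cons]
      obtain ⟨a, b⟩ := l
      rw [litAct_other a k (fun e => h (Eq.symm e))]
    | succ j =>
      simp only [List.getElem_cons_succ] at h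
      simp only [List.eraseIdx_cons_succ, lev_cons]
      rw [ih j (by simpa using hj) h]

theorem countP_le_sum {α : Type} (L : List α) (f : α → ℝ≥0) (P : α → Bool)
    (h : ∀ a ∈ L, P a = true → 1 ≤ f a) : (L.countP P : ℝ≥0) ≤ (L.map f).sum := by
  induction L with
  | nil => simp
  | cons a L ih =>
    simp only [List.map_cons, List.sum_cons, List.countP_cons]
    have h1 := h a List.mem_cons_self
    have h2 := ih (fun b hb => h b (List.mem_cons_of_mem _ hb))
    push_cast
    rw [add_comm]
    apply add_le_add _ h2
    split_ifs with hp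
    · exact h1 hp
    · exact zero_le

/-- total number of good places -/
noncomputable def totN (t : Tree n) : ℕ := ∑ i ∈ unexp (some t), NN i t

open Classical in
noncomputable def R1 (t : Tree n) : Finset (Fin n) :=
  (unexp (some t)).filter (fun i => lev i t.leaves = 1)

open Classical in
theorem sumI_ind (t : Tree n) : (totN t : ℝ≥0) ≤ sumI t (ind (some t)) := by
  have h1 : ∀ i ∈ unexp (some t), (NN i t : ℝ≥0) ≤
      ∑ r : Bool, ((t.atNodes (insAt (i, true) r)).map (fun t' => ind (some t) (some t'))).sum := by
    intro i hi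
    have hi' := (mem_unexp _ i).1 hi
    simp only [leaves] at hi'
    have hc := ins_count i t hi'
    have hc' : ((t.atNodes (insAt (i, true) false)).countP
        (fun t' => decide (lev i t'.leaves = 0)) : ℝ≥0) +
        (t.atNodes (insAt (i, true) true)).countP (fun t' => decide (lev i t'.leaves = 0)) =
        NN i t := by exact_mod_cast hc
    rw [← hc', Fintype.sum_bool, add_comm]
    have key : ∀ r : Bool, ((t.atNodes (insAt (i, true) r)).countP
        (fun t' => decide (lev i t'.leaves = 0)) : ℝ≥0) ≤
        ((t.atNodes (insAt (i, true) r)).map (fun t' => ind (some t) (some t'))).sum := by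
      intro r
      apply countP_le_sum
      intro t' ht' h0
      simp only [decide_eq_true_eq] at h0
      unfold ind
      rw [if_pos]
      apply fitness_lt _ _ i
      · exact hi'
      · exact h0
      · intro k hk
        exact ins_lev_other i k hk true r t t' ht'
    exact add_le_add (key true) (key false)
  unfold totN
  push_cast
  calc _ ≤ ∑ i ∈ unexp (some t), ∑ r : Bool,
        ((t.atNodes (insAt (i, true) r)).map (fun t' => ind (some t) (some t'))).sum :=
        Finset.sum_le_sum h1
    _ = ∑ l ∈ (unexp (some t)).image (fun i => ((i, true) : Lit n)), ∑ r : Bool,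
        ((t.atNodes (insAt l r)).map (fun t' => ind (some t) (some t'))).sum := by
        rw [Finset.sum_image]
        intro a _ b _ hab
        exact (Prod.ext_iff.1 hab).1
    _ ≤ _ := by
        unfold sumI
        apply Finset.sum_le_sum_of_subset_of_nonneg (Finset.subset_univ _)
        intro _ _ _
        exact zero_le

open Classical in
theorem sumD_ind (t : Tree n) : ((R1 t).card : ℝ≥0) ≤ sumD t (ind (some t)) := by
  have hG : ∀ X : State n, ind (some t) X = (fun w : List (Lit n) =>
      if (Finset.univ.filter (fun i : Fin n => lev i t.leaves = 0)).card <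
        (Finset.univ.filter (fun i : Fin n => lev i w = 0)).card then (1 : ℝ≥0) else 0)
        (leaves X) := by
    intro X
    unfold ind
    rw [fitness_eq, fitness_eq]
    rfl
  have h0 : sumD t (ind (some t)) = ∑ j ∈ Finset.range t.size,
      (fun w : List (Lit n) =>
      if (Finset.univ.filter (fun i : Fin n => lev i t.leaves = 0)).card <
        (Finset.univ.filter (fun i : Fin n => lev i w = 0)).card then (1 : ℝ≥0) else 0)
        (t.leaves.eraseIdx j) := by
    refine Eq.trans ?_ (sum_deletions t (fun w : List (Lit n) =>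
      if (Finset.univ.filter (fun i : Fin n => lev i t.leaves = 0)).card <
        (Finset.univ.filter (fun i : Fin n => lev i w = 0)).card then (1 : ℝ≥0) else 0))
    unfold sumD
    congr 1
    apply List.map_congr_left
    intro X _
    exact hG X
  rw [h0]
  have hex : ∀ i ∈ R1 t, ∃ j, ∃ hj : j < t.leaves.length,
      (t.leaves)[j] = (i, false) ∧ lev i (t.leaves.eraseIdx j) = 0 := by
    intro i hi
    unfold R1 at hi
    rw [Finset.mem_filter] at hi
    exact exists_erase i _ hi.2
  choose! g hg using hex
  have hinj : Set.InjOn g (R1 t) := by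
    intro a ha b hb hab
    obtain ⟨h1, h2, _⟩ := hg a ha
    obtain ⟨h3, h4, _⟩ := hg b hb
    have : (t.leaves)[g a] = (t.leaves)[g b] := by congr 1
    rw [h2, h4] at this
    exact (Prod.ext_iff.1 this).1
  calc ((R1 t).card : ℝ≥0) = ∑ i ∈ R1 t, (1 : ℝ≥0) := by simp
    _ = ∑ j ∈ (R1 t).image g, (1 : ℝ≥0) := by rw [Finset.sum_image hinj]
    _ ≤ ∑ j ∈ (R1 t).image g, (fun w : List (Lit n) =>
      if (Finset.univ.filter (fun i : Fin n => lev i t.leaves = 0)).card <
        (Finset.univ.filter (fun i : Fin n => lev i w = 0)).card then (1 : ℝ≥0) else 0)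
        (t.leaves.eraseIdx j) := by
        apply Finset.sum_le_sum
        intro j hj
        rw [Finset.mem_image] at hj
        obtain ⟨i, hi, rfl⟩ := hj
        obtain ⟨h1, h2, h3⟩ := hg i hi
        simp only
        rw [if_pos]
        apply Finset.card_lt_card
        rw [Finset.ssubset_iff_of_subset]
        · refine ⟨i, by simp [h3], ?_⟩
          unfold R1 at hi
          rw [Finset.mem_filter] at hi
          simp [hi.2]
        · intro k hk
          simp only [Finset.mem_filter, Finset.mem_univ, true_and] at hk ⊢
          by_cases e : k = i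
          · subst e; exact h3
          · rw [erase_lev_other k _ _ h1 (by rw [h2]; exact fun h => e h.symm)]
            exact hk
    _ ≤ _ := by
        apply Finset.sum_le_sum_of_subset_of_nonneg
        · intro j hj
          rw [Finset.mem_image] at hj
          obtain ⟨i, hi, rfl⟩ := hj
          obtain ⟨h1, _, _⟩ := hg i hi
          rw [Finset.mem_range]
          exact h1
        · intro _ _ _
          exact zero_le

/-- one-step improvement probability, real version -/
theorem EhN_ind [NeZero n] (t : Tree n) :
    (totN t : ℝ≥0) / (24 * n * t.size) + ((R1 t).card : ℝ≥0) / (3 * t.size) ≤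
      EhN t (ind (some t)) := by
  have hT := t.size_pos
  have hn : n ≠ 0 := NeZero.ne n
  have hn' : (0 : ℝ≥0) < n := by exact_mod_cast Nat.pos_of_ne_zero hn
  have hT' : (0 : ℝ≥0) < t.size := by exact_mod_cast hT
  have hM' : (0 : ℝ≥0) < (2 * t.size - 1 : ℕ) := by exact_mod_cast (by omega : 0 < 2 * t.size - 1)
  have hM2 : ((2 * t.size - 1 : ℕ) : ℝ≥0) ≤ 2 * t.size := by
    exact_mod_cast (by omega : 2 * t.size - 1 ≤ 2 * t.size)
  have h1 := sumI_ind t
  have h2 := sumD_ind t
  unfold EhN
  rw [le_div_iff₀ (by norm_num)]
  calc _ = (totN t : ℝ≥0) / (4 * n * (2 * t.size)) + ((R1 t).card : ℝ≥0) / t.size := by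
        field_simp
        ring
    _ ≤ sumI t (ind (some t)) / (4 * n * (2 * t.size - 1 : ℕ)) +
        sumD t (ind (some t)) / t.size := by gcongr
    _ ≤ _ := le_self_add

/-! ### Quadratic lower bound -/

theorem two_mul_sum_ge {ι : Type} (s : Finset ι) (f : ι → ℕ) (hf : Set.InjOn f s) :
    s.card ^ 2 ≤ 2 * ∑ i ∈ s, (f i + 1) := by
  classical
  have h1 : ∀ i ∈ s, (s.filter (fun k => f k ≤ f i)).card ≤ f i + 1 := by
    intro i _
    calc (s.filter (fun k => f k ≤ f i)).card
        = ((s.filter (fun k => f k ≤ f i)).image f).card := by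
          rw [Finset.card_image_of_injOn]
          exact hf.mono (by intro x hx; exact (Finset.mem_filter.1 hx).1)
      _ ≤ (Finset.range (f i + 1)).card := by
          apply Finset.card_le_card
          intro y hy
          simp only [Finset.mem_image, Finset.mem_filter] at hy
          obtain ⟨k, ⟨_, hk⟩, rfl⟩ := hy
          rw [Finset.mem_range]; omega
      _ = f i + 1 := Finset.card_range _
  have h2 : s.card ^ 2 ≤ 2 * ∑ i ∈ s, (s.filter (fun k => f k ≤ f i)).card := by
    have e1 : ∑ i ∈ s, (s.filter (fun k => f k ≤ f i)).card =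
        ∑ i ∈ s, ∑ k ∈ s, if f k ≤ f i then 1 else 0 := by
      apply Finset.sum_congr rfl
      intro i _
      rw [Finset.card_filter]
    have e2 : ∑ i ∈ s, ∑ k ∈ s, (if f k ≤ f i then 1 else 0) =
        ∑ i ∈ s, ∑ k ∈ s, if f i ≤ f k then 1 else 0 := Finset.sum_comm
    rw [e1, two_mul]
    nth_rw 2 [e2]
    rw [← Finset.sum_add_distrib]
    calc s.card ^ 2 = ∑ i ∈ s, ∑ k ∈ s, 1 := by simp [sq]
      _ ≤ _ := by
          apply Finset.sum_le_sum
          intro i _
          rw [← Finset.sum_add_distrib]
          apply Finset.sum_le_sum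
          intro k _
          rcases le_total (f k) (f i) with h | h
          · rw [if_pos h]; omega
          · rw [if_pos h]; omega
  calc s.card ^ 2 ≤ _ := h2
    _ ≤ _ := by
        apply Nat.mul_le_mul_left
        exact Finset.sum_le_sum h1

open Classical in
theorem totN_quadratic (t : Tree n) :
    t.size * (unexp (some t)).card ^ 2 ≤ 2 * totN t * (t.size + (unexp (some t)).card) := by
  set U := unexp (some t) with hU
  set Ua := U.filter (fun i => (i, false) ∈ t.leaves) with hUa
  set Ub := U.filter (fun i => ¬ (i, false) ∈ t.leaves) with hUb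
  have hcard : Ua.card + Ub.card = U.card :=
    Finset.card_filter_add_card_filter_not (s := U) (fun i => (i, false) ∈ t.leaves)
  have hsum : totN t = ∑ i ∈ Ua, NN i t + ∑ i ∈ Ub, NN i t :=
    (Finset.sum_filter_add_sum_filter_not U (fun i => (i, false) ∈ t.leaves) _).symm
  have ha : Ua.card ^ 2 ≤ 2 * ∑ i ∈ Ua, NN i t := by
    refine le_trans (two_mul_sum_ge Ua (fun i => t.leaves.idxOf (i, false)) ?_) ?_
    · intro a ha b hb hab
      have ha' := (Finset.mem_filter.1 ha).2
      have := (List.idxOf_inj ha').1 hab
      exact (Prod.ext_iff.1 this).1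
    · apply Nat.mul_le_mul_left
      apply Finset.sum_le_sum
      intro i hi
      exact idxOf_lt_NN i t (Finset.mem_filter.1 hi).2
  have hb : Ub.card * (2 * t.size) ≤ ∑ i ∈ Ub, NN i t := by
    rw [← smul_eq_mul, ← Finset.sum_const]
    apply Finset.sum_le_sum
    intro i hi
    have := NN_eq i t (Finset.mem_filter.1 hi).2
    have h2 := t.size_pos
    omega
  rw [hsum, ← hcard]
  set a := Ua.card
  set b := Ub.card
  set T := t.size
  set A := ∑ i ∈ Ua, NN i t
  set B := ∑ i ∈ Ub, NN i t
  nlinarith [Nat.zero_le (a * b * T), Nat.zero_le (b * b * T), Nat.zero_le (A * a),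
    Nat.zero_le (A * b), Nat.zero_le (B * T), Nat.mul_le_mul_left T ha,
    Nat.mul_le_mul_left (a + b) hb, Nat.zero_le (B * a), Nat.zero_le (B * b)]

/-- small trees -/
theorem totN_small (t : Tree n) (h : 2 * t.size ≤ n) : n * t.size ≤ totN t := by
  classical
  set w := t.leaves with hw
  set S : Finset (Fin n) := (w.map Prod.fst).toFinset with hS
  have hScard : S.card ≤ t.size := by
    calc S.card ≤ (w.map Prod.fst).length := List.toFinset_card_le _
      _ = t.size := by simp [Tree.size, hw]
  have hc : ∀ i ∈ Sᶜ, (i, true) ∉ w ∧ (i, false) ∉ w := by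
    intro i hi
    rw [Finset.mem_compl, hS, List.mem_toFinset, List.mem_map] at hi
    push Not at hi
    exact ⟨fun h => hi (i, true) h rfl, fun h => hi (i, false) h rfl⟩
  have hsub : Sᶜ ⊆ unexp (some t) := by
    intro i hi
    rw [mem_unexp]
    obtain ⟨h1, h2⟩ := hc i hi
    unfold leaves lev
    simp only
    rw [act_eq_self i _ h1 h2]
    norm_num
  have hcc : S.card + Sᶜ.card = n := by
    rw [Finset.card_add_card_compl]; simp
  calc n * t.size ≤ Sᶜ.card * (2 * t.size) := by
        have : n ≤ 2 * Sᶜ.card := by omega
        nlinarith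
    _ ≤ ∑ i ∈ Sᶜ, NN i t := by
        rw [← smul_eq_mul, ← Finset.sum_const]
        apply Finset.sum_le_sum
        intro i hi
        have := NN_eq i t (hc i hi).2
        have h2 := t.size_pos
        omega
    _ ≤ totN t := by
        unfold totN
        apply Finset.sum_le_sum_of_subset_of_nonneg hsub
        intro _ _ _
        exact Nat.zero_le _

/-- the sum of the potentials in terms of `totN` and `R1` for large trees -/
theorem sum_W_le [NeZero n] (t : Tree n) (h : n < 2 * t.size) :
    ∑ i ∈ unexp (some t), W i (some t) ≤ 72 * EhN t (ind (some t)) := by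
  classical
  have hT := t.size_pos
  have hn : n ≠ 0 := NeZero.ne n
  have hn' : (0 : ℝ≥0) < n := by exact_mod_cast Nat.pos_of_ne_zero hn
  have hT' : (0 : ℝ≥0) < t.size := by exact_mod_cast hT
  have hnT : (n : ℝ≥0) ≤ 2 * t.size := by exact_mod_cast h.le
  have h1 : ∀ i ∈ unexp (some t), W i (some t) ≤
      (if lev i t.leaves = 1 then 1 / (t.size : ℝ≥0) else 0) + 3 * (NN i t / (n * t.size)) := by
    intro i hi
    have hi' := (mem_unexp _ i).1 hi
    simp only [leaves] at hi'
    have hN : (1 : ℝ≥0) ≤ NN i t := by exact_mod_cast NN_pos i t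
    rw [W_some]
    unfold nu
    have hk := lev_le i t.leaves
    have key : rho t.size (lev i t.leaves) ≤
        (if lev i t.leaves = 1 then 1 / (t.size : ℝ≥0) else 0) +
          2 * (NN i t / (n * t.size)) := by
      interval_cases hl : lev i t.leaves
      · exact absurd rfl hi'
      · simp [rho]
      · simp only [rho]
        norm_num
        have : ((t.size : ℝ≥0) ^ 2)⁻¹ ≤ 2 * (1 / (n * t.size)) := by
          rw [mul_one_div, inv_eq_one_div, div_le_div_iff₀ (by positivity) (by positivity)]
          calc 1 * ((n : ℝ≥0) * t.size) ≤ 1 * ((2 * t.size) * t.size) := by gcongr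
            _ = 2 * t.size ^ 2 := by ring
        calc _ ≤ _ := this
          _ ≤ _ := by gcongr
      · simp [rho]
    calc _ ≤ _ := add_le_add_left key _
      _ = _ := by ring
  have h2 := EhN_ind t
  calc _ ≤ ∑ i ∈ unexp (some t), ((if lev i t.leaves = 1 then 1 / (t.size : ℝ≥0) else 0) +
        3 * (NN i t / (n * t.size))) := Finset.sum_le_sum h1
    _ = (R1 t).card * (1 / (t.size : ℝ≥0)) + 3 * (totN t / (n * t.size)) := by
        rw [Finset.sum_add_distrib, ← Finset.sum_filter, Finset.sum_const, nsmul_eq_mul,
          ← Finset.mul_sum, ← Finset.sum_div]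
        congr 2
        unfold totN
        push_cast
        rfl
    _ ≤ 24 * ((R1 t).card / (t.size : ℝ≥0)) + 3 * (totN t / (n * t.size)) := by
        apply add_le_add_left
        rw [mul_one_div]
        calc _ = 1 * ((R1 t).card / (t.size : ℝ≥0)) := by ring
          _ ≤ _ := by gcongr; norm_num
    _ = 72 * ((totN t : ℝ≥0) / (24 * n * t.size) + ((R1 t).card : ℝ≥0) / (3 * t.size)) := by
        field_simp
        ring
    _ ≤ _ := by gcongr

end

end Pool.Agent.Lib.MP_3edecc_lc
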