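import Pool.Agent.Lib.MP_3edecc_lc.Lower

/-!
# The expected optimization time
-/

set_option autoImplicit false

open scoped ENNReal NNReal

namespace Pool.Agent.Lib.MP_3edecc_lc

section
variable {n : ℕ} [NeZero n]

/-! ### Hitting times and additive drift -/

theorem expectedTime_le (V : State n → ℝ≥0∞)
    (h : ∀ X, ¬ Optimal X → 1 + Ex (gpStep X) V ≤ V X) (X : State n) : expectedTime X ≤ V X := by
  unfold expectedTime
  apply ENNReal.tsum_le_of_sum_range_le
  intro N
  induction N generalizing X with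
  | zero => simp
  | succ N ih =>
    rw [Finset.sum_range_succ']
    by_cases hX : Optimal X
    · simp [probNotYet, hX]
    · have e : ∀ t, probNotYet (t + 1) X = ∑' Y, gpStep X Y * probNotYet t Y := by
        intro t; rw [probNotYet, if_neg hX]
      simp only [e]
      have e0 : probNotYet 0 X = 1 := by rw [probNotYet, if_neg hX]
      rw [e0, ← Summable.tsum_finsetSum (fun i _ => ENNReal.summable)]
      simp only [← Finset.mul_sum]
      rw [add_comm]
      refine le_trans ?_ (h X hX)
      gcongr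
      unfold Ex
      exact ENNReal.tsum_le_tsum fun Y => mul_le_mul_right (ih Y) _

/-! ### Supports -/

theorem Ex_mono_support {α : Type} {p : PMF α} {F G : α → ℝ≥0∞}
    (h : ∀ a, p a ≠ 0 → F a ≤ G a) : Ex p F ≤ Ex p G := by
  apply ENNReal.tsum_le_tsum
  intro a
  by_cases ha : p a = 0
  · simp [ha]
  · exact mul_le_mul_right (h a ha) _

open Classical in
theorem hvl_size (X Y : State n) (h : hvl X Y ≠ 0) : size Y ≤ size X + 1 := by
  set F : State n → ℝ≥0 := fun Z => if size Z ≤ size X + 1 then 0 else 1 with hF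
  have h0 : Ex (hvl X) (fun Z => (F Z : ℝ≥0∞)) = 0 := by
    cases X with
    | none =>
      unfold hvl
      simp only
      rw [Ex_map]
      have : ∀ l : Lit n, F (some (Tree.leaf l)) = 0 := by
        intro l
        simp [hF, size, leaves, Tree.leaves]
      simp only [this]
      simp [Ex_const]
    | some t =>
      rw [hvl_Ex]
      have hI : sumI t F = 0 := by
        unfold sumI
        apply Finset.sum_eq_zero
        intro l _
        apply Finset.sum_eq_zero
        intro r _
        apply List.sum_eq_zero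
        intro x hx
        rw [List.mem_map] at hx
        obtain ⟨t', ht', rfl⟩ := hx
        have := ins_size l r t t' ht'
        simp only [hF]
        rw [if_pos]
        exact le_of_eq this
      have hD : sumD t F = 0 := by
        unfold sumD
        apply List.sum_eq_zero
        intro x hx
        rw [List.mem_map] at hx
        obtain ⟨X', hX', rfl⟩ := hx
        have := del_size t X' hX'
        simp only [hF]
        rw [if_pos]
        have e : size (some t) = t.size := rfl
        omega
      have hS : sumS t F = 0 := by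
        unfold sumS
        apply Finset.sum_eq_zero
        intro l _
        apply List.sum_eq_zero
        intro x hx
        rw [List.mem_map] at hx
        obtain ⟨t', ht', rfl⟩ := hx
        have := sub_size l t t' ht'
        simp only [hF]
        rw [if_pos]
        have e : size (some t) = t.size := rfl
        have e' : size (some t') = t'.size := rfl
        omega
      unfold EhN
      rw [hI, hD, hS]
      simp
  unfold Ex at h0
  rw [ENNReal.tsum_eq_zero] at h0
  have h1 := h0 Y
  rw [mul_eq_zero] at h1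
  rcases h1 with h1 | h1
  · exact absurd h1 h
  · by_contra hcon
    simp only [hF] at h1
    rw [if_neg hcon] at h1
    simp at h1

theorem hvlIter_size (k : ℕ) (X Y : State n) (h : hvlIter k X Y ≠ 0) : size Y ≤ size X + k := by
  induction k generalizing X with
  | zero =>
    unfold hvlIter at h
    have : Y = X := by
      by_contra hcon
      exact h (PMF.pure_apply_of_ne _ _ hcon)
    rw [this]; exact le_refl _
  | succ k ih =>
    unfold hvlIter at h
    have h' := (PMF.mem_support_iff _ _).2 h
    rw [PMF.mem_support_bind_iff] at h'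
    obtain ⟨Z, hZ, hY⟩ := h'
    have h1 := hvl_size X Z ((PMF.mem_support_iff _ _).1 hZ)
    have h2 := ih Z ((PMF.mem_support_iff _ _).1 hY)
    omega

/-! ### Improvement probabilities -/

/-- one application of HVL-Prime improves -/
noncomputable def P1 (X : State n) : ℝ≥0∞ := Ex (hvl X) (fun Y => (ind X Y : ℝ≥0∞))

/-- `1 + j` applications of HVL-Prime improve -/
noncomputable def Pj (X : State n) (j : ℕ) : ℝ≥0∞ :=
  Ex (hvlIter (1 + j) X) (fun Y => (ind X Y : ℝ≥0∞))

/-- one iteration of the algorithm improves -/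
noncomputable def Pi (X : State n) : ℝ≥0∞ := Ex poisson1 (Pj X)

omit [NeZero n] in
theorem ind_le_one (X Y : State n) : (ind X Y : ℝ≥0∞) ≤ 1 := by
  unfold ind; split_ifs <;> simp

theorem Pj_le_one (X : State n) (j : ℕ) : Pj X j ≤ 1 := by
  unfold Pj
  calc _ ≤ Ex (hvlIter (1 + j) X) (fun _ => 1) := Ex_mono fun Y => ind_le_one X Y
    _ = 1 := Ex_const _ _

theorem Pj_le_W (X : State n) (j : ℕ) :
    Pj X j ≤ 8 ^ (1 + j) * ((∑ i ∈ unexp X, W i X : ℝ≥0) : ℝ≥0∞) := by
  unfold Pj
  calc _ ≤ Ex (hvlIter (1 + j) X) (fun Y => ∑ i ∈ unexp X, (W i Y : ℝ≥0∞)) := by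
        apply Ex_mono
        intro Y
        have := ind_le_sum_W X Y
        rw [← ENNReal.ofNNReal_finsetSum]
        exact_mod_cast this
    _ = ∑ i ∈ unexp X, Ex (hvlIter (1 + j) X) (fun Y => (W i Y : ℝ≥0∞)) := Ex_finset_sum _ _ _
    _ ≤ ∑ i ∈ unexp X, 8 ^ (1 + j) * (W i X : ℝ≥0∞) :=
        Finset.sum_le_sum fun i _ => Ex_hvlIter_W i (1 + j) X
    _ = _ := by rw [← Finset.mul_sum, ENNReal.ofNNReal_finsetSum]

theorem P1_some (t : Tree n) : P1 (some t) = (EhN t (ind (some t)) : ℝ≥0) := hvl_Ex t _

/-- improvement from the empty tree -/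
theorem P1_none : (1 : ℝ≥0∞) / 2 ≤ P1 (none : State n) := by
  classical
  have hn : n ≠ 0 := NeZero.ne n
  unfold P1 hvl
  simp only
  rw [Ex_map, Ex_uniform]
  have hcard : Fintype.card (Lit n) = 2 * n := by
    simp [Lit, mul_comm]
  rw [hcard]
  have h1 : ∀ i : Fin n, ind (none : State n) (some (Tree.leaf (i, true))) = 1 := by
    intro i
    unfold ind
    rw [if_pos]
    apply fitness_lt _ _ i
    · simp [leaves, lev]
    · simp [leaves, Tree.leaves, lev, litAct_true]
    · intro k hk
      simp only [leaves, Tree.leaves, lev_cons]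
      rw [litAct_other i k hk]
  have h2 : (n : ℝ≥0∞) ≤ ∑ l : Lit n, (ind (none : State n) (some (Tree.leaf l)) : ℝ≥0∞) := by
    rw [Fintype.sum_prod_type]
    calc (n : ℝ≥0∞) = ∑ i : Fin n, (1 : ℝ≥0∞) := by simp
      _ ≤ _ := by
        apply Finset.sum_le_sum
        intro i _
        rw [Fintype.sum_bool, h1 i]
        simp
  have hn0 : (n : ℝ≥0∞) ≠ 0 := by exact_mod_cast hn
  calc (1 : ℝ≥0∞) / 2 = n / ((2 * n : ℕ) : ℝ≥0∞) := by
        push_cast
        have := ENNReal.mul_div_mul_right 1 2 hn0 (ENNReal.natCast_ne_top n)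
        rw [one_mul] at this
        exact this.symm
    _ ≤ _ := by gcongr

theorem P1_small (X : State n) (h : 2 * size X ≤ n) : (1 : ℝ≥0∞) / 24 ≤ P1 X := by
  cases X with
  | none =>
    refine le_trans ?_ P1_none
    apply ENNReal.div_le_div_left
    norm_num
  | some t =>
    rw [P1_some]
    have hT := t.size_pos
    have hn : n ≠ 0 := NeZero.ne n
    have hn' : (0 : ℝ≥0) < n := by exact_mod_cast Nat.pos_of_ne_zero hn
    have hT' : (0 : ℝ≥0) < t.size := by exact_mod_cast hT
    have h1 := EhN_ind t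
    have h2 : (n * t.size : ℝ≥0) ≤ totN t := by exact_mod_cast totN_small t h
    have h3 : (1 : ℝ≥0) / 24 ≤ EhN t (ind (some t)) := by
      calc (1 : ℝ≥0) / 24 = (n * t.size) / (24 * n * t.size) := by field_simp
        _ ≤ totN t / (24 * n * t.size) := by gcongr
        _ ≤ _ := le_self_add
        _ ≤ _ := h1
    have : ((1 / 24 : ℝ≥0) : ℝ≥0∞) = 1 / 24 := by
      rw [ENNReal.coe_div (by norm_num)]; norm_num
    rw [← this]
    exact_mod_cast h3

theorem P1_quadratic (X : State n) :
    ((unexp X).card : ℝ≥0∞) ^ 2 ≤ 48 * n * (size X + (unexp X).card) * P1 X := by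
  have hn : n ≠ 0 := NeZero.ne n
  have hn' : (0 : ℝ≥0) < n := by exact_mod_cast Nat.pos_of_ne_zero hn
  cases X with
  | none =>
    have h1 : (unexp (none : State n)).card = n := by
      have h2 := fitness_add (none : State n)
      have h3 : fitness (none : State n) = 0 := by
        classical
        rw [fitness_eq]
        simp [leaves, lev]
      omega
    rw [h1]
    have h0 : (size (none : State n) : ℝ≥0∞) = 0 := by simp [size, leaves]
    rw [h0, zero_add]
    calc (n : ℝ≥0∞) ^ 2 = 2 * n * n * (1 / 2) := by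
          rw [mul_one_div]
          rw [ENNReal.eq_div_iff (by norm_num) (by norm_num)]
          ring
      _ ≤ 48 * n * n * P1 none := by
          gcongr
          · norm_num
          · exact P1_none
  | some t =>
    rw [P1_some]
    have hT := t.size_pos
    have hT' : (0 : ℝ≥0) < t.size := by exact_mod_cast hT
    have h1 := EhN_ind t
    have h2 : ((t.size : ℝ≥0) * (unexp (some t)).card ^ 2) ≤
        2 * totN t * (t.size + (unexp (some t)).card) := by exact_mod_cast totN_quadratic t
    have h3 : ((unexp (some t)).card : ℝ≥0) ^ 2 ≤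
        48 * n * (t.size + (unexp (some t)).card) * EhN t (ind (some t)) := by
      calc ((unexp (some t)).card : ℝ≥0) ^ 2
          = ((t.size : ℝ≥0) * ((unexp (some t)).card : ℝ≥0) ^ 2) / (t.size : ℝ≥0) := by field_simp
        _ ≤ (2 * (totN t : ℝ≥0) * (t.size + (unexp (some t)).card)) / (t.size : ℝ≥0) := by gcongr
        _ = 48 * n * (t.size + (unexp (some t)).card) *
            ((totN t : ℝ≥0) / (24 * n * t.size)) := by
            field_simp
            ring
        _ ≤ _ := by
            gcongr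
            exact le_trans le_self_add h1
    have e : size (some t) = t.size := rfl
    rw [e]
    exact_mod_cast h3

/-! ### The Poisson distribution -/

theorem poisson1_apply (j : ℕ) :
    poisson1 j = ENNReal.ofReal (Real.exp (-1) / (Nat.factorial j)) := by
  unfold poisson1
  rw [MeasureTheory.Measure.toPMF_apply, ProbabilityTheory.poissonMeasure_singleton]
  simp

theorem poisson1_zero : (1 : ℝ≥0∞) / 3 ≤ poisson1 0 := by
  rw [poisson1_apply]
  have h : (1 : ℝ) / 3 ≤ Real.exp (-1) / (Nat.factorial 0) := by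
    rw [Real.exp_neg]
    simp only [Nat.factorial_zero, Nat.cast_one, div_one]
    rw [one_div]
    apply inv_anti₀ (Real.exp_pos 1)
    have := Real.exp_one_lt_d9
    linarith
  calc (1 : ℝ≥0∞) / 3 = ENNReal.ofReal (1 / 3) := by
        rw [ENNReal.ofReal_div_of_pos (by norm_num)]; simp
    _ ≤ _ := ENNReal.ofReal_le_ofReal h

noncomputable def Mc : ℝ≥0∞ := Ex poisson1 (fun j => (1 + j : ℕ) * 8 ^ (1 + j))

theorem Mc_ne_top : Mc ≠ ⊤ := by
  have hb : Mc ≤ ∑' j : ℕ, ENNReal.ofReal (8 * (16 ^ j / (Nat.factorial j))) := by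
    unfold Mc Ex
    apply ENNReal.tsum_le_tsum
    intro j
    rw [poisson1_apply]
    have e : (((1 + j : ℕ) : ℝ≥0∞) * 8 ^ (1 + j)) = ENNReal.ofReal ((1 + j : ℕ) * 8 ^ (1 + j)) := by
      rw [ENNReal.ofReal_mul (by positivity), ENNReal.ofReal_natCast,
        ENNReal.ofReal_pow (by norm_num)]
      simp
    simp only
    rw [e, ← ENNReal.ofReal_mul (by positivity)]
    apply ENNReal.ofReal_le_ofReal
    have h1 : Real.exp (-1) ≤ 1 := by
      rw [Real.exp_le_one_iff]; norm_num
    have h2 : ((1 + j : ℕ) : ℝ) ≤ 2 ^ j := by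
      have : 1 + j ≤ 2 ^ j := by
        have := Nat.lt_two_pow_self (n := j)
        omega
      exact_mod_cast this
    calc Real.exp (-1) / (Nat.factorial j) * ((1 + j : ℕ) * 8 ^ (1 + j))
        ≤ 1 / (Nat.factorial j) * (2 ^ j * 8 ^ (1 + j)) := by gcongr
      _ = 8 * (16 ^ j / (Nat.factorial j)) := by
          rw [pow_add, pow_one]
          have : (16 : ℝ) ^ j = 2 ^ j * 8 ^ j := by rw [← mul_pow]; norm_num
          rw [this]; ring
  have hs : Summable (fun j : ℕ => 8 * ((16 : ℝ) ^ j / (Nat.factorial j))) :=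
    (Real.summable_pow_div_factorial 16).mul_left 8
  refine ne_top_of_le_ne_top ?_ hb
  rw [← ENNReal.ofReal_tsum_of_nonneg (fun j => by positivity) hs]
  exact ENNReal.ofReal_ne_top

theorem one_le_Mc : 1 ≤ Mc := by
  unfold Mc
  calc (1 : ℝ≥0∞) = Ex poisson1 (fun _ => 1) := (Ex_const _ _).symm
    _ ≤ _ := by
      apply Ex_mono
      intro j
      have h1 : (1 : ℝ≥0∞) ≤ (1 + j : ℕ) := by exact_mod_cast (by omega : 1 ≤ 1 + j)
      have h2 : (1 : ℝ≥0∞) ≤ 8 ^ (1 + j) := one_le_pow₀ (by norm_num)
      calc (1 : ℝ≥0∞) = 1 * 1 := by ring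
        _ ≤ _ := by gcongr

theorem P1_le_Pi (X : State n) : P1 X ≤ 3 * Pi X := by
  have h1 : poisson1 0 * P1 X ≤ Pi X := by
    unfold Pi Ex
    have : P1 X = Pj X 0 := by
      unfold P1 Pj
      simp only [hvlIter]
      rw [Ex_bind]
      simp [Ex_pure]
    rw [this]
    exact ENNReal.le_tsum 0
  calc P1 X = 3 * (1 / 3 * P1 X) := by
        rw [← mul_assoc, ENNReal.mul_div_cancel (by norm_num) (by norm_num), one_mul]
    _ ≤ 3 * (poisson1 0 * P1 X) := by gcongr; exact poisson1_zero
    _ ≤ _ := by gcongr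

/-- the expected number of operations in an improving iteration -/
theorem Ek_le (X : State n) :
    Ex poisson1 (fun j => (1 + j : ℕ) * Pj X j) ≤ 216 * Mc * Pi X := by
  have key : Ex poisson1 (fun j => (1 + j : ℕ) * Pj X j) ≤ 72 * Mc * P1 X := by
    by_cases h : 2 * size X ≤ n
    · have h1 := P1_small X h
      calc Ex poisson1 (fun j => (1 + j : ℕ) * Pj X j)
          ≤ Mc := by
            unfold Mc
            apply Ex_mono
            intro j
            gcongr
            refine le_trans (Pj_le_one X j) ?_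
            exact one_le_pow₀ (by norm_num)
        _ = 24 * Mc * (1 / 24) := by
            rw [mul_one_div, ENNReal.eq_div_iff (by norm_num) (by norm_num)]
        _ ≤ 72 * Mc * P1 X := by gcongr; norm_num
    · cases X with
      | none => exfalso; apply h; simp [size, leaves]
      | some t =>
        have h2 : n < 2 * t.size := by
          have e : size (some t) = t.size := rfl
          omega
        have h3 := sum_W_le t h2
        have h3' : ((∑ i ∈ unexp (some t), W i (some t) : ℝ≥0) : ℝ≥0∞) ≤ 72 * P1 (some t) := by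
          rw [P1_some]; exact_mod_cast h3
        calc Ex poisson1 (fun j => (1 + j : ℕ) * Pj (some t) j)
            ≤ Ex poisson1 (fun j => (72 * P1 (some t)) * ((1 + j : ℕ) * 8 ^ (1 + j))) := by
              apply Ex_mono
              intro j
              calc ((1 + j : ℕ) : ℝ≥0∞) * Pj (some t) j
                  ≤ (1 + j : ℕ) * (8 ^ (1 + j) *
                    ((∑ i ∈ unexp (some t), W i (some t) : ℝ≥0) : ℝ≥0∞)) := by
                    gcongr; exact Pj_le_W _ j
                _ ≤ (1 + j : ℕ) * (8 ^ (1 + j) * (72 * P1 (some t))) := by gcongr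
                _ = _ := by ring
          _ = (72 * P1 (some t)) * Mc := Ex_const_mul _ _ _
          _ = _ := by ring
  calc _ ≤ _ := key
    _ ≤ 72 * Mc * (3 * Pi X) := by gcongr; exact P1_le_Pi X
    _ = _ := by ring

/-! ### The potential -/

noncomputable def Kc : ℝ≥0 := (216 * Mc).toNNReal

theorem coe_Kc : (Kc : ℝ≥0∞) = 216 * Mc :=
  ENNReal.coe_toNNReal (ENNReal.mul_ne_top (by norm_num) Mc_ne_top)

theorem one_le_Kc : 1 ≤ Kc := by
  have : (1 : ℝ≥0∞) ≤ Kc := by
    rw [coe_Kc]
    calc (1 : ℝ≥0∞) = 1 * 1 := by ring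
      _ ≤ 216 * Mc := by gcongr; · norm_num
                         · exact one_le_Mc
  exact_mod_cast this

noncomputable def hh (m : ℕ) : ℝ≥0 := ∑ j ∈ Finset.range m, 1 / ((j : ℝ≥0) + 1) ^ 2

theorem hh_succ (m : ℕ) : hh (m + 1) = hh m + 1 / ((m : ℝ≥0) + 1) ^ 2 := by
  unfold hh; rw [Finset.sum_range_succ]

theorem hh_mono : Monotone hh := by
  apply monotone_nat_of_le_succ
  intro m
  rw [hh_succ]
  exact le_self_add

theorem hh_le_two (m : ℕ) : hh m ≤ 2 := by
  have h : ∀ m : ℕ, hh (m + 1) + 1 / ((m : ℝ≥0) + 1) ≤ 2 := by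
    intro m
    induction m with
    | zero => simp [hh]; norm_num
    | succ m ih =>
      rw [hh_succ]
      push_cast
      have : (1 : ℝ≥0) / ((m : ℝ≥0) + 1 + 1) ^ 2 + 1 / ((m : ℝ≥0) + 1 + 1) ≤
          1 / ((m : ℝ≥0) + 1) := by
        rw [div_add_div _ _ (by positivity) (by positivity), div_le_div_iff₀ (by positivity)
          (by positivity)]
        have hm : (0 : ℝ≥0) ≤ m := zero_le
        ring_nf
        nlinarith [hm, mul_nonneg hm hm, mul_nonneg (mul_nonneg hm hm) hm]
      calc _ = hh (m + 1) + (1 / ((m : ℝ≥0) + 1 + 1) ^ 2 + 1 / ((m : ℝ≥0) + 1 + 1)) := by ring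
        _ ≤ hh (m + 1) + 1 / ((m : ℝ≥0) + 1) := by gcongr
        _ ≤ 2 := ih
  cases m with
  | zero => simp [hh]
  | succ m => exact le_trans le_self_add (h m)

noncomputable def V (X : State n) : ℝ≥0 :=
  144 * n * (size X + Kc * (unexp X).card) * hh (unexp X).card

theorem V_drift (X : State n) (hX : ¬ Optimal X) :
    1 + Ex (gpStep X) (fun Y => (V Y : ℝ≥0∞)) ≤ V X := by
  classical
  obtain ⟨m, hm⟩ : ∃ m, (unexp X).card = m + 1 := by
    rw [optimal_iff] at hX
    exact ⟨(unexp X).card - 1, by omega⟩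
  set T := size X with hT
  -- value after an improvement with `1 + j` operations
  set V' : ℕ → ℝ≥0 := fun j => 144 * n * (T + (1 + j : ℕ) + Kc * m) * hh m with hV'
  have hpt : ∀ j : ℕ, ∀ Y, hvlIter (1 + j) X Y ≠ 0 →
      (V (if fitness X < fitness Y then Y else X) : ℝ≥0∞) + ind X Y * V X ≤
        V X + ind X Y * V' j := by
    intro j Y hY
    unfold ind
    by_cases h : fitness X < fitness Y
    · rw [if_pos h, if_pos h]
      have h1 := hvlIter_size (1 + j) X Y hY
      have h2 := fitness_add X
      have h3 := fitness_add Y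
      have h4 : (unexp Y).card ≤ m := by omega
      have h5 : V Y ≤ V' j := by
        unfold V
        simp only [hV']
        gcongr
        · exact_mod_cast h1
        · exact hh_mono h4
      simp only [ENNReal.coe_one, one_mul]
      rw [add_comm]
      gcongr
    · rw [if_neg h, if_neg h]
      simp
  have hstep : Ex (gpStep X) (fun Y => (V Y : ℝ≥0∞)) + Pi X * V X ≤
      V X + Ex poisson1 (fun j => Pj X j * V' j) := by
    have e1 : Pi X * V X = Ex poisson1 (fun j => Pj X j * V X) := by
      unfold Pi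
      rw [mul_comm, ← Ex_const_mul]
      congr 1; ext j; ring
    have e2 : ∀ j, Pj X j * (V X : ℝ≥0∞) =
        Ex (hvlIter (1 + j) X) (fun Y => (ind X Y : ℝ≥0∞) * V X) := by
      intro j
      unfold Pj
      rw [mul_comm, ← Ex_const_mul]
      congr 1; ext Y; ring
    have e3 : ∀ j, Pj X j * (V' j : ℝ≥0∞) =
        Ex (hvlIter (1 + j) X) (fun Y => (ind X Y : ℝ≥0∞) * V' j) := by
      intro j
      unfold Pj
      rw [mul_comm, ← Ex_const_mul]
      congr 1; ext Y; ring
    have e4 : (V X : ℝ≥0∞) = Ex poisson1 (fun _ => (V X : ℝ≥0∞)) := (Ex_const _ _).symm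
    unfold gpStep
    rw [Ex_bind, e1, ← Ex_add]
    conv_rhs => rw [e4, ← Ex_add]
    apply Ex_mono
    intro j
    rw [Ex_map, e2, e3, ← Ex_add]
    have e5 : (V X : ℝ≥0∞) = Ex (hvlIter (1 + j) X) (fun _ => (V X : ℝ≥0∞)) := (Ex_const _ _).symm
    conv_rhs => rw [e5, ← Ex_add]
    apply Ex_mono_support
    intro Y hY
    exact hpt j Y hY
  -- the main estimate
  have hmain : 1 + Ex poisson1 (fun j => Pj X j * V' j) ≤ Pi X * V X := by
    have hk := Ek_le X
    have hq : ((m + 1 : ℕ) : ℝ≥0∞) ^ 2 ≤ 144 * n * (T + Kc * (m + 1 : ℕ)) * Pi X := by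
      have h1 := P1_quadratic X
      rw [hm] at h1
      have hK : (1 : ℝ≥0∞) ≤ Kc := by exact_mod_cast one_le_Kc
      calc _ ≤ _ := h1
        _ ≤ 48 * n * (T + Kc * (m + 1 : ℕ)) * (3 * Pi X) := by
            gcongr
            · calc ((m + 1 : ℕ) : ℝ≥0∞) = 1 * (m + 1 : ℕ) := by ring
                _ ≤ _ := by gcongr
            · exact P1_le_Pi X
        _ = _ := by ring
    have hE : Ex poisson1 (fun j => Pj X j * V' j) ≤
        144 * n * (T + Kc * (m + 1 : ℕ)) * hh m * Pi X := by
      have e : ∀ j, Pj X j * (V' j : ℝ≥0∞) =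
          (144 * n * (T + Kc * m) * hh m) * Pj X j +
            (144 * n * hh m) * ((1 + j : ℕ) * Pj X j) := by
        intro j
        simp only [hV']
        push_cast
        ring
      simp only [e]
      rw [Ex_add, Ex_const_mul, Ex_const_mul]
      calc _ ≤ (144 * n * (T + Kc * m) * hh m) * Pi X + (144 * n * hh m) * (216 * Mc * Pi X) := by
            gcongr
            exact le_refl _
        _ = _ := by
            rw [← coe_Kc]
            push_cast
            ring
    have hV : (V X : ℝ≥0∞) = 144 * n * (T + Kc * (m + 1 : ℕ)) * (hh m + 1 / ((m : ℝ≥0∞) + 1) ^ 2) := by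
      unfold V
      rw [hm, hh_succ]
      push_cast
      rw [ENNReal.coe_div (by positivity)]
      push_cast
      rfl
    rw [hV]
    have h1 : (1 : ℝ≥0∞) ≤ 144 * n * (T + Kc * (m + 1 : ℕ)) * Pi X * (1 / ((m : ℝ≥0∞) + 1) ^ 2) := by
      rw [mul_one_div, ENNReal.le_div_iff_mul_le (by left; positivity) (by left; finiteness)]
      rw [one_mul]
      calc _ = ((m + 1 : ℕ) : ℝ≥0∞) ^ 2 := by push_cast; rfl
        _ ≤ _ := hq
    calc _ ≤ 144 * n * (T + Kc * (m + 1 : ℕ)) * Pi X * (1 / ((m : ℝ≥0∞) + 1) ^ 2) +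
          144 * n * (T + Kc * (m + 1 : ℕ)) * hh m * Pi X := add_le_add h1 hE
      _ = _ := by ring
  -- conclude
  have hfin : Pi X * (V X : ℝ≥0∞) ≠ ⊤ := by
    apply ENNReal.mul_ne_top _ ENNReal.coe_ne_top
    apply ne_top_of_le_ne_top ENNReal.one_ne_top
    unfold Pi
    calc _ ≤ Ex poisson1 (fun _ => 1) := Ex_mono fun j => Pj_le_one X j
      _ = 1 := Ex_const _ _
  have : (1 + Ex (gpStep X) (fun Y => (V Y : ℝ≥0∞))) + Pi X * V X ≤ V X + Pi X * V X := by
    calc _ = 1 + (Ex (gpStep X) (fun Y => (V Y : ℝ≥0∞)) + Pi X * V X) := by ring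
      _ ≤ 1 + (V X + Ex poisson1 (fun j => Pj X j * V' j)) := by gcongr
      _ = V X + (1 + Ex poisson1 (fun j => Pj X j * V' j)) := by ring
      _ ≤ _ := by gcongr
  exact (ENNReal.add_le_add_iff_right hfin).1 this

end

/-- The expected optimization time of the (1+1) GP* on ORDER is `O(n² + n T_init)`. -/
theorem main : ∃ C : ℝ≥0, ∀ (n : ℕ) [NeZero n] (X : State n),
    expectedTime X ≤ C * ((n : ℝ≥0∞) ^ 2 + n * size X) := by
  refine ⟨288 * Kc, ?_⟩
  intro n hn X
  refine le_trans (expectedTime_le (fun Y => (V Y : ℝ≥0∞)) V_drift X) ?_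
  have hm : ((unexp X).card : ℝ≥0) ≤ n := by
    have := fitness_add X
    exact_mod_cast (by omega : (unexp X).card ≤ n)
  have hK := one_le_Kc
  have h : V X ≤ 288 * Kc * ((n : ℝ≥0) ^ 2 + n * size X) := by
    unfold V
    calc _ ≤ 144 * n * (Kc * size X + Kc * n) * 2 := by
          gcongr
          · calc (size X : ℝ≥0) = 1 * size X := by ring
              _ ≤ _ := by gcongr
          · exact hh_le_two _
      _ = _ := by ring
  exact_mod_cast h

end Pool.Agent.Lib.MP_3edecc_lc
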