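import Pool.Agent.Lib.MP_3edecc_lc.Good

/-!
# Substitutions and deletions
-/

set_option autoImplicit false

open scoped ENNReal NNReal

namespace Pool.Agent.Lib.MP_3edecc_lc

section
variable {n : ℕ} (i : Fin n)

/-! ### Substitution -/

theorem sub_size (l : Lit n) (t : Tree n) : ∀ t' ∈ t.atNodes (subAt l), t'.size = t.size := by
  induction t with
  | leaf m =>
    intro t' ht'
    simp only [Tree.atNodes, List.mem_singleton] at ht'
    subst ht'
    rfl
  | J a b iha ihb =>
    intro t' ht'
    simp only [Tree.atNodes, List.mem_cons, List.mem_append, List.mem_map] at ht'
    rcases ht' with h | ⟨a', ha', h⟩ | ⟨b', hb', h⟩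
    · subst h; rfl
    · subst h; rw [Tree.size_J, Tree.size_J, iha a' ha']
    · subst h; rw [Tree.size_J, Tree.size_J, ihb b' hb']

theorem sub_eq_or_mem (l : Lit n) (t : Tree n) :
    ∀ t' ∈ t.atNodes (subAt l), t' = t ∨ l ∈ t'.leaves := by
  induction t with
  | leaf m =>
    intro t' ht'
    simp only [Tree.atNodes, List.mem_singleton] at ht'
    subst ht'
    right; simp [subAt, Tree.leaves]
  | J a b iha ihb =>
    intro t' ht'
    simp only [Tree.atNodes, List.mem_cons, List.mem_append, List.mem_map] at ht'
    rcases ht' with h | ⟨a', ha', h⟩ | ⟨b', hb', h⟩
    · subst h; left; rfl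
    · subst h
      rcases iha a' ha' with h | h
      · left; rw [h]
      · right; simp [Tree.leaves, h]
    · subst h
      rcases ihb b' hb' with h | h
      · left; rw [h]
      · right; simp [Tree.leaves, h]

open Classical in
theorem sub_count (t : Tree n) (ht : lev i t.leaves ≠ 0) :
    (t.atNodes (subAt (i, true))).countP (fun t' => decide (lev i t'.leaves = 0)) ≤ NN i t := by
  induction t with
  | leaf m =>
    have := NN_pos i (Tree.leaf m)
    have h : (Tree.atNodes (subAt (i, true)) (Tree.leaf m)).countP
      (fun t' => decide (lev i t'.leaves = 0)) ≤ 1 := by
      refine le_trans List.countP_le_length ?_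
      simp [Tree.atNodes]
    omega
  | J a b iha ihb =>
    have ht0 := ht
    simp only [Tree.leaves] at ht
    rw [lev_append] at ht
    have ha3 : lev i a.leaves ≠ 0 := by
      intro h
      apply ht
      have := act_mono i a.leaves (lev_le i b.leaves)
      unfold lev at h
      omega
    have iha' := iha ha3
    have ea : ((a.atNodes (subAt (i, true))).map (fun a' => Tree.J a' b)).countP
        (fun t' => decide (lev i t'.leaves = 0)) ≤
        (a.atNodes (subAt (i, true))).countP (fun t' => decide (lev i t'.leaves = 0)) := by
      rw [List.countP_map]
      apply List.countP_mono_left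
      intro a' ha'
      simp only [Function.comp, Tree.leaves, decide_eq_true_eq]
      rw [lev_append]
      intro h
      rcases sub_eq_or_mem _ _ a' ha' with h' | h'
      · subst h'; exact absurd h ht
      · rw [act_eq_of_pos i a'.leaves h' _ 3] at h
        exact h
    have eb : ((b.atNodes (subAt (i, true))).map (fun b' => Tree.J a b')).countP
        (fun t' => decide (lev i t'.leaves = 0)) =
        if (i, false) ∈ a.leaves then 0 else
        (b.atNodes (subAt (i, true))).countP (fun t' => decide (lev i t'.leaves = 0)) := by
      rw [List.countP_map]
      by_cases hneg : (i, false) ∈ a.leaves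
      · rw [if_pos hneg, List.countP_eq_zero]
        intro b' hb'
        simp only [Function.comp, Tree.leaves, decide_eq_true_eq]
        rw [lev_append]
        exact act_ne_zero_of_neg i a.leaves hneg ha3 _
      · rw [if_neg hneg]
        apply List.countP_congr
        intro b' hb'
        simp only [Function.comp, Tree.leaves, decide_eq_true_eq]
        rw [lev_append, act_eq_self i a.leaves (not_pos_of i a.leaves hneg ha3) hneg]
    have e0 : decide (lev i (subAt (i, true) (Tree.J a b)).leaves = 0) = false := by
      simp only [subAt, decide_eq_false_iff_not]
      exact ht0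
    simp only [Tree.atNodes, List.countP_cons, List.countP_append, eb, e0]
    unfold NN
    by_cases hneg : (i, false) ∈ a.leaves
    · simp only [hneg, if_true, Bool.false_eq_true, if_false]
      omega
    · have hb3 : lev i b.leaves ≠ 0 := by
        rw [act_eq_self i a.leaves (not_pos_of i a.leaves hneg ha3) hneg] at ht
        exact ht
      have ihb' := ihb hb3
      simp only [hneg, if_false, Bool.false_eq_true]
      omega

/-- annotated list of substitutions; the flag marks the substitution of the first negated
`x_i` -/
def subA (l : Lit n) : Tree n → List (Bool × Tree n)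
  | .leaf m => [(decide (m = (i, false)), .leaf l)]
  | .J a b => (false, .J a b) :: ((subA l a).map (fun p => (p.1, Tree.J p.2 b)) ++
      (subA l b).map (fun p => (p.1 && decide ((i, false) ∉ a.leaves), Tree.J a p.2)))

theorem subA_snd (l : Lit n) (t : Tree n) : (subA i l t).map Prod.snd = t.atNodes (subAt l) := by
  induction t with
  | leaf m => rfl
  | J a b iha ihb =>
    simp only [subA, Tree.atNodes, List.map_cons, List.map_append, List.map_map, subAt,
      ← iha, ← ihb]
    rfl

theorem subA_count (l : Lit n) (t : Tree n) :
    (subA i l t).countP (fun p => p.1) = if (i, false) ∈ t.leaves then 1 else 0 := by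
  induction t with
  | leaf m =>
    simp only [subA, Tree.leaves, List.mem_singleton]
    by_cases h : m = (i, false)
    · subst h; simp
    · have h' : ¬ (i, false) = m := fun e => h (Eq.symm e)
      simp [h, h']
  | J a b iha ihb =>
    simp only [subA, List.countP_cons, List.countP_append, List.countP_map, Tree.leaves,
      List.mem_append]
    have e1 : (subA i l a).countP ((fun p : Bool × Tree n => p.1) ∘
        fun p => (p.1, Tree.J p.2 b)) = (subA i l a).countP (fun p => p.1) := rfl
    rw [e1, iha]
    by_cases ha : (i, false) ∈ a.leaves
    · have e2 : (subA i l b).countP ((fun p : Bool × Tree n => p.1) ∘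
        fun p => (p.1 && decide ((i, false) ∉ a.leaves), Tree.J a p.2)) = 0 := by
        rw [List.countP_eq_zero]
        intro p hp
        simp [ha]
      rw [e2]
      simp [ha]
    · have e2 : (subA i l b).countP ((fun p : Bool × Tree n => p.1) ∘
        fun p => (p.1 && decide ((i, false) ∉ a.leaves), Tree.J a p.2)) =
        (subA i l b).countP (fun p => p.1) := by
        apply List.countP_congr
        intro p hp
        simp [ha]
      rw [e2, ihb]
      simp [ha]

theorem subA_good (l : Lit n) (t : Tree n) : ∀ p ∈ subA i l t, p.1 = false →
    NN i p.2 ≤ NN i t ∧ ((i, false) ∈ t.leaves → (i, false) ∈ p.2.leaves) := by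
  induction t with
  | leaf m =>
    intro p hp h
    simp only [subA, List.mem_singleton] at hp
    subst hp
    simp only [decide_eq_false_iff_not] at h
    refine ⟨?_, ?_⟩
    · simp only [NN]
      rw [if_neg h]
      split_ifs <;> omega
    · intro h2
      simp only [Tree.leaves, List.mem_singleton] at h2
      exact absurd h2.symm h
  | J a b iha ihb =>
    intro p hp h
    simp only [subA, List.mem_cons, List.mem_append, List.mem_map] at hp
    rcases hp with h' | ⟨q, hq, h'⟩ | ⟨q, hq, h'⟩
    · subst h'; exact ⟨le_refl _, fun h => h⟩
    · subst h'
      obtain ⟨h1, h2⟩ := iha q hq h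
      simp only [Tree.leaves, List.mem_append]
      refine ⟨?_, ?_⟩
      · rw [NN, NN]
        simp only [List.mem_append]
        by_cases ha : (i, false) ∈ a.leaves
        · have := h2 ha
          simp only [ha, this, true_or, if_true]
          omega
        · by_cases hb : (i, false) ∈ b.leaves
          · simp only [ha, hb, or_true, if_true, if_false]
            split_ifs <;> omega
          · simp only [ha, hb, or_false, if_false]
            split_ifs <;> omega
      · rintro (h3 | h3)
        · exact Or.inl (h2 h3)
        · exact Or.inr h3
    · subst h'
      simp only [Bool.and_eq_false_iff, decide_eq_false_iff_not, not_not] at h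
      simp only [Tree.leaves, List.mem_append]
      by_cases ha : (i, false) ∈ a.leaves
      · refine ⟨?_, fun _ => Or.inl ha⟩
        rw [NN, NN]
        simp only [List.mem_append, ha, true_or, if_true]
        omega
      · have hq1 : q.1 = false := by
          rcases h with h | h
          · exact h
          · exact absurd h ha
        obtain ⟨h1, h2⟩ := ihb q hq hq1
        refine ⟨?_, ?_⟩
        · rw [NN, NN]
          simp only [List.mem_append, ha, false_or, if_false]
          by_cases hb : (i, false) ∈ b.leaves
          · have := h2 hb
            simp only [hb, this, if_true]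
            omega
          · simp only [hb, if_false]
            split_ifs <;> omega
        · rintro (h3 | h3)
          · exact absurd h3 ha
          · exact Or.inr (h2 h3)

theorem sum_flag {α : Type} (L : List (Bool × α)) (f : α → ℕ) (c d : ℕ)
    (h1 : ∀ p ∈ L, p.1 = false → f p.2 ≤ c) (h2 : ∀ p ∈ L, f p.2 ≤ d) :
    ((L.map Prod.snd).map f).sum ≤ L.length * c + (L.countP (fun p => p.1)) * d := by
  induction L with
  | nil => simp
  | cons p L ih =>
    have ih' := ih (fun q hq => h1 q (List.mem_cons_of_mem _ hq))
      (fun q hq => h2 q (List.mem_cons_of_mem _ hq))
    have hp1 := h1 p List.mem_cons_self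
    have hp2 := h2 p List.mem_cons_self
    simp only [List.map_cons, List.sum_cons, List.length_cons, List.countP_cons]
    rcases hb : p.1 with _ | _
    · have := hp1 hb
      simp only [Bool.false_eq_true, if_false]
      nlinarith
    · simp only [if_true]
      nlinarith

theorem sub_NN_sum (l : Lit n) (t : Tree n) :
    ((t.atNodes (subAt l)).map (NN i)).sum ≤ (2 * t.size - 1) * NN i t + 4 * t.size := by
  have h := sum_flag (subA i l t) (NN i) (NN i t) (4 * t.size)
    (fun p hp hb => (subA_good i l t p hp hb).1)
    (fun p hp => by
      have hm : p.2 ∈ t.atNodes (subAt l) := by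
        rw [← subA_snd i l t]; exact List.mem_map_of_mem hp
      have h1 := NN_le i p.2
      have h2 := sub_size l t p.2 hm
      omega)
  rw [subA_snd] at h
  have hc : (subA i l t).countP (fun p => p.1) ≤ 1 := by
    rw [subA_count]; split_ifs <;> omega
  have hl : (subA i l t).length = 2 * t.size - 1 := by
    have h1 : (subA i l t).length = (t.atNodes (subAt l)).length := by
      rw [← subA_snd i l t, List.length_map]
    have h2 := length_atNodes (subAt l) t
    omega
  rw [hl] at h
  refine le_trans h ?_
  nlinarith

/-! ### Deletion -/

/-- annotated list of deletions; the flag marks the deletion of the first negated `x_i` -/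
def delA : Tree n → List (Bool × State n)
  | .leaf m => [(decide (m = (i, false)), none)]
  | .J a b => (delA a).map (fun p => (p.1, joinL b p.2)) ++
      (delA b).map (fun p => (p.1 && decide ((i, false) ∉ a.leaves), joinR a p.2))

theorem delA_snd (t : Tree n) : (delA i t).map Prod.snd = t.deletions := by
  induction t with
  | leaf m => rfl
  | J a b iha ihb =>
    simp only [delA, Tree.deletions, List.map_append, List.map_map, ← iha, ← ihb]
    rfl

theorem delA_count (t : Tree n) :
    (delA i t).countP (fun p => p.1) = if (i, false) ∈ t.leaves then 1 else 0 := by
  induction t with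
  | leaf m =>
    simp only [delA, Tree.leaves, List.mem_singleton]
    by_cases h : m = (i, false)
    · subst h; simp
    · have h' : ¬ (i, false) = m := fun e => h (Eq.symm e)
      simp [h, h']
  | J a b iha ihb =>
    simp only [delA, List.countP_append, List.countP_map, Tree.leaves, List.mem_append]
    have e1 : (delA i a).countP ((fun p : Bool × State n => p.1) ∘
        fun p => (p.1, joinL b p.2)) = (delA i a).countP (fun p => p.1) := rfl
    rw [e1, iha]
    by_cases ha : (i, false) ∈ a.leaves
    · have e2 : (delA i b).countP ((fun p : Bool × State n => p.1) ∘
        fun p => (p.1 && decide ((i, false) ∉ a.leaves), joinR a p.2)) = 0 := by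
        rw [List.countP_eq_zero]
        intro p hp
        simp [ha]
      rw [e2]
      simp [ha]
    · have e2 : (delA i b).countP ((fun p : Bool × State n => p.1) ∘
        fun p => (p.1 && decide ((i, false) ∉ a.leaves), joinR a p.2)) =
        (delA i b).countP (fun p => p.1) := by
        apply List.countP_congr
        intro p hp
        simp [ha]
      rw [e2, ihb]
      simp [ha]

/-- `NN` for states -/
def NS : State n → ℕ
  | none => 0
  | some t => NN i t

theorem delA_good (t : Tree n) : ∀ p ∈ delA i t, p.1 = false →
    NS i p.2 ≤ NN i t ∧ ((i, false) ∈ t.leaves → (i, false) ∈ leaves p.2) := by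
  induction t with
  | leaf m =>
    intro p hp h
    simp only [delA, List.mem_singleton] at hp
    subst hp
    simp only [decide_eq_false_iff_not] at h
    refine ⟨Nat.zero_le _, ?_⟩
    intro h2
    simp only [Tree.leaves, List.mem_singleton] at h2
    exact absurd h2.symm h
  | J a b iha ihb =>
    intro p hp h
    simp only [delA, List.mem_append, List.mem_map] at hp
    rcases hp with ⟨q, hq, h'⟩ | ⟨q, hq, h'⟩
    · subst h'
      obtain ⟨h1, h2⟩ := iha q hq h
      simp only [Tree.leaves, List.mem_append, leaves_joinL]
      refine ⟨?_, ?_⟩
      · rcases hq2 : q.2 with _ | a'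
        · rw [hq2] at h1 h2
          have ha : (i, false) ∉ a.leaves := fun h => by simpa [leaves] using h2 h
          simp only [joinL, NS]
          conv_rhs => rw [NN]
          rw [if_neg ha]
          omega
        · rw [hq2] at h1 h2
          simp only [joinL, NS, leaves] at h1 h2 ⊢
          rw [NN, NN]
          simp only [List.mem_append]
          by_cases ha : (i, false) ∈ a.leaves
          · have := h2 ha
            simp only [ha, this, true_or, if_true]
            omega
          · by_cases hb : (i, false) ∈ b.leaves
            · simp only [ha, hb, or_true, if_true, if_false]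
              split_ifs <;> omega
            · simp only [ha, hb, or_false, if_false]
              split_ifs <;> omega
      · rintro (h3 | h3)
        · exact Or.inl (h2 h3)
        · exact Or.inr h3
    · subst h'
      simp only [Bool.and_eq_false_iff, decide_eq_false_iff_not, not_not] at h
      simp only [Tree.leaves, List.mem_append, leaves_joinR]
      by_cases ha : (i, false) ∈ a.leaves
      · refine ⟨?_, fun _ => Or.inl ha⟩
        rcases hq2 : q.2 with _ | b'
        · simp only [joinR, NS]
          conv_rhs => rw [NN]
          omega
        · simp only [joinR, NS]
          rw [NN, NN]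
          simp only [List.mem_append, ha, true_or, if_true]
          omega
      · have hq1 : q.1 = false := by
          rcases h with h | h
          · exact h
          · exact absurd h ha
        obtain ⟨h1, h2⟩ := ihb q hq hq1
        refine ⟨?_, ?_⟩
        · rcases hq2 : q.2 with _ | b'
          · simp only [joinR, NS]
            conv_rhs => rw [NN]
            omega
          · rw [hq2] at h1 h2
            simp only [joinR, NS, leaves] at h1 h2 ⊢
            rw [NN, NN]
            simp only [List.mem_append, ha, false_or, if_false]
            by_cases hb : (i, false) ∈ b.leaves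
            · have := h2 hb
              simp only [hb, this, if_true]
              omega
            · simp only [hb, if_false]
              split_ifs <;> omega
        · rintro (h3 | h3)
          · exact absurd h3 ha
          · exact Or.inr (h2 h3)

theorem del_size (t : Tree n) : ∀ X ∈ t.deletions, size X + 1 = t.size := by
  induction t with
  | leaf m =>
    intro X hX
    simp only [Tree.deletions, List.mem_singleton] at hX
    subst hX
    rfl
  | J a b iha ihb =>
    intro X hX
    simp only [Tree.deletions, List.mem_append, List.mem_map] at hX
    rcases hX with ⟨Y, hY, h⟩ | ⟨Y, hY, h⟩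
    · subst h
      have := iha Y hY
      unfold size at this ⊢
      rw [leaves_joinL, List.length_append, Tree.size_J]
      unfold Tree.size at *
      omega
    · subst h
      have := ihb Y hY
      unfold size at this ⊢
      rw [leaves_joinR, List.length_append, Tree.size_J]
      unfold Tree.size at *
      omega

theorem NS_le (X : State n) : NS i X ≤ 4 * size X := by
  cases X with
  | none => simp [NS]
  | some t =>
    have := NN_le i t
    unfold NS size leaves
    unfold Tree.size at this
    simp only
    omega

theorem del_NN_sum (t : Tree n) :
    (t.deletions.map (NS i)).sum ≤ t.size * NN i t + 4 * (t.size - 1) := by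
  have h := sum_flag (delA i t) (NS i) (NN i t) (4 * (t.size - 1))
    (fun p hp hb => (delA_good i t p hp hb).1)
    (fun p hp => by
      have hm : p.2 ∈ t.deletions := by
        rw [← delA_snd i t]; exact List.mem_map_of_mem hp
      have h1 := NS_le i p.2
      have h2 := del_size t p.2 hm
      omega)
  rw [delA_snd] at h
  have hc : (delA i t).countP (fun p => p.1) ≤ 1 := by
    rw [delA_count]; split_ifs <;> omega
  have hl : (delA i t).length = t.size := by
    have h1 : (delA i t).length = t.deletions.length := by
      rw [← delA_snd i t, List.length_map]
    rw [h1, length_deletions]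
  rw [hl] at h
  refine le_trans h ?_
  nlinarith

end

end Pool.Agent.Lib.MP_3edecc_lc
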