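import Pool.Agent.Lib.MP_3edecc_lc.Words

/-!
# Tree combinatorics
-/

set_option autoImplicit false

open scoped ENNReal NNReal

namespace Pool.Agent.Lib.MP_3edecc_lc

section
variable {n : ℕ}

def Tree.size (t : Tree n) : ℕ := t.leaves.length

theorem Tree.size_leaf (l : Lit n) : (Tree.leaf l).size = 1 := rfl
theorem Tree.size_J (a b : Tree n) : (Tree.J a b).size = a.size + b.size := by
  simp [Tree.size, Tree.leaves]

theorem Tree.size_pos (t : Tree n) : 1 ≤ t.size := by
  induction t with
  | leaf l => simp [Tree.size_leaf]
  | J a b iha ihb => rw [Tree.size_J]; omega

theorem length_atNodes (φ : Tree n → Tree n) (t : Tree n) :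
    (t.atNodes φ).length + 1 = 2 * t.size := by
  induction t with
  | leaf l => simp [Tree.atNodes, Tree.size_leaf]
  | J a b iha ihb => simp only [Tree.atNodes, Tree.size_J, List.length_cons, List.length_append,
      List.length_map]; omega

theorem length_deletions (t : Tree n) : t.deletions.length = t.size := by
  induction t with
  | leaf l => simp [Tree.deletions, Tree.size_leaf]
  | J a b iha ihb => simp only [Tree.deletions, Tree.size_J, List.length_append,
      List.length_map]; omega

theorem atNodes_ne_nil (φ : Tree n → Tree n) (t : Tree n) : t.atNodes φ ≠ [] := by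
  intro h
  have := length_atNodes φ t
  have h2 := t.size_pos
  rw [h] at this
  simp at this
  omega

theorem deletions_ne_nil (t : Tree n) : t.deletions ≠ [] := by
  intro h
  have := length_deletions t
  have h2 := t.size_pos
  rw [h] at this
  simp at this
  omega

theorem leaves_joinL (b : Tree n) (X : State n) : leaves (joinL b X) = leaves X ++ b.leaves := by
  cases X <;> rfl

theorem leaves_joinR (a : Tree n) (X : State n) : leaves (joinR a X) = a.leaves ++ leaves X := by
  cases X <;> simp [joinR, leaves, Tree.leaves]

theorem map_leaves_deletions (t : Tree n) :
    t.deletions.map leaves = (List.range t.size).map (fun j => t.leaves.eraseIdx j) := by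
  induction t with
  | leaf l => rfl
  | J a b iha ihb =>
    simp only [Tree.deletions, List.map_append, List.map_map, Tree.size_J, List.range_add,
      Tree.leaves]
    congr 1
    · have : (leaves ∘ joinL b) = (fun w => w ++ b.leaves) ∘ (leaves : State n → _) := by
        ext1 X; exact leaves_joinL b X
      rw [this, ← List.map_map, iha, List.map_map]
      apply List.map_congr_left
      intro j hj
      simp only [List.mem_range] at hj
      simp only [Function.comp]
      rw [List.eraseIdx_append_of_lt_length (by exact hj)]
    · have : (leaves ∘ joinR a) = (fun w => a.leaves ++ w) ∘ (leaves : State n → _) := by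
        ext1 X; exact leaves_joinR a X
      rw [this, ← List.map_map, ihb, List.map_map]
      apply List.map_congr_left
      intro j hj
      simp only [Function.comp]
      rw [List.eraseIdx_append_of_length_le (by unfold Tree.size; omega)]
      congr 1
      unfold Tree.size
      congr 1
      omega

theorem sum_deletions (t : Tree n) (G : List (Lit n) → ℝ≥0) :
    (t.deletions.map (fun X => G (leaves X))).sum =
      ∑ j ∈ Finset.range t.size, G (t.leaves.eraseIdx j) := by
  have h := congrArg (fun L => (L.map G).sum) (map_leaves_deletions t)
  simp only [List.map_map] at h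
  exact h

theorem sum_sub (l : Lit n) (t : Tree n) (G : List (Lit n) → ℝ≥0) :
    ((t.atNodes (subAt l)).map (fun t' => G t'.leaves)).sum + G t.leaves =
      t.size * G t.leaves + ∑ j ∈ Finset.range t.size, G (t.leaves.set j l) := by
  induction t generalizing G with
  | leaf m => simp [Tree.atNodes, subAt, Tree.leaves, Tree.size]; ring
  | J a b iha ihb =>
    have ha := iha (fun w => G (w ++ b.leaves))
    have hb := ihb (fun w => G (a.leaves ++ w))
    simp only [Tree.atNodes, List.map_cons, List.map_append, List.sum_cons, List.sum_append,
      List.map_map, Tree.size_J, Tree.leaves, subAt, Function.comp_def]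
    rw [Finset.sum_range_add]
    have e1 : ∑ j ∈ Finset.range a.size, G ((a.leaves ++ b.leaves).set j l) =
        ∑ j ∈ Finset.range a.size, G (a.leaves.set j l ++ b.leaves) := by
      apply Finset.sum_congr rfl
      intro j hj
      rw [List.set_append_left _ _ (by exact Finset.mem_range.1 hj)]
    have e2 : ∑ j ∈ Finset.range b.size, G ((a.leaves ++ b.leaves).set (a.size + j) l) =
        ∑ j ∈ Finset.range b.size, G (a.leaves ++ b.leaves.set j l) := by
      apply Finset.sum_congr rfl
      intro j hj
      rw [List.set_append_right _ _ (by unfold Tree.size; omega)]
      congr 2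
      unfold Tree.size
      congr 1
      omega
    rw [e1, e2]
    push_cast
    linear_combination ha + hb

end

end Pool.Agent.Lib.MP_3edecc_lc
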