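import Pool.Agent.Lib.MP_3edecc_lc.Defs

/-!
# Word combinatorics
-/

set_option autoImplicit false

open scoped ENNReal NNReal

namespace Pool.Agent.Lib.MP_3edecc_lc

/-- number of negated occurrences before, capped at two; `3` stands for infinity -/
def up : ℕ → ℕ
  | 0 => 1
  | 1 => 2
  | 2 => 2
  | (k + 3) => k + 3

theorem le_up (k : ℕ) : k ≤ up k := by
  rcases k with _ | _ | _ | k <;> simp [up]

theorem up_mono {k m : ℕ} (h : k ≤ m) : up k ≤ up m := by
  rcases k with _ | _ | _ | k <;> rcases m with _ | _ | _ | m <;> simp [up] at * <;> omega

theorem one_le_up (k : ℕ) : 1 ≤ up k := by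
  rcases k with _ | _ | _ | k <;> simp [up]

theorem up_le {k : ℕ} (h : k ≤ 3) : up k ≤ 3 := up_mono h

section
variable {n : ℕ} (i : Fin n)

def litAct (l : Lit n) (k : ℕ) : ℕ :=
  if l = (i, true) then 0 else if l = (i, false) then up k else k

def act : List (Lit n) → ℕ → ℕ
  | [], k => k
  | l :: w, k => litAct i l (act w k)

def lev (w : List (Lit n)) : ℕ := act i w 3

@[simp] theorem act_nil (k : ℕ) : act i [] k = k := rfl
@[simp] theorem act_cons (l : Lit n) (w : List (Lit n)) (k : ℕ) :
    act i (l :: w) k = litAct i l (act i w k) := rfl

theorem litAct_true (k : ℕ) : litAct i (i, true) k = 0 := by simp [litAct]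
theorem litAct_false (k : ℕ) : litAct i (i, false) k = up k := by simp [litAct]

theorem litAct_mono (l : Lit n) {k m : ℕ} (h : k ≤ m) : litAct i l k ≤ litAct i l m := by
  unfold litAct
  split_ifs
  · exact le_refl _
  · exact up_mono h
  · exact h

theorem litAct_le (l : Lit n) {k : ℕ} (h : k ≤ 3) : litAct i l k ≤ 3 := by
  unfold litAct
  split_ifs
  · omega
  · exact up_le h
  · exact h

theorem le_litAct (l : Lit n) (hl : l ≠ (i, true)) (k : ℕ) : k ≤ litAct i l k := by
  unfold litAct
  rw [if_neg hl]
  split_ifs
  · exact le_up k
  · exact le_refl _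

theorem act_append (w₁ w₂ : List (Lit n)) (k : ℕ) :
    act i (w₁ ++ w₂) k = act i w₁ (act i w₂ k) := by
  induction w₁ with
  | nil => rfl
  | cons l w ih => simp [ih]

theorem act_mono (w : List (Lit n)) {k m : ℕ} (h : k ≤ m) : act i w k ≤ act i w m := by
  induction w with
  | nil => exact h
  | cons l w ih => exact litAct_mono i l ih

theorem act_le (w : List (Lit n)) {k : ℕ} (h : k ≤ 3) : act i w k ≤ 3 := by
  induction w with
  | nil => exact h
  | cons l w ih => exact litAct_le i l ih

theorem lev_le (w : List (Lit n)) : lev i w ≤ 3 := act_le i w (le_refl _)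

theorem lev_append (w₁ w₂ : List (Lit n)) : lev i (w₁ ++ w₂) = act i w₁ (lev i w₂) :=
  act_append i w₁ w₂ 3

theorem lev_cons (l : Lit n) (w : List (Lit n)) : lev i (l :: w) = litAct i l (lev i w) := rfl

theorem act_zero_of_noNeg (w : List (Lit n)) (h : (i, false) ∉ w) : act i w 0 = 0 := by
  induction w with
  | nil => rfl
  | cons l w ih =>
    simp only [List.mem_cons, not_or] at h
    rw [act_cons, ih h.2]
    unfold litAct
    rw [if_neg (fun e => h.1 (Eq.symm e) : ¬ l = (i, false))]
    split_ifs <;> rfl

theorem act_ne_zero_of_neg (w : List (Lit n)) (h : (i, false) ∈ w) (h3 : act i w 3 ≠ 0) (k : ℕ) :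
    act i w k ≠ 0 := by
  induction w with
  | nil => simp at h
  | cons l w ih =>
    rw [act_cons] at h3 ⊢
    unfold litAct at h3 ⊢
    by_cases h1 : l = (i, true)
    · rw [if_pos h1] at h3; exact absurd rfl h3
    · rw [if_neg h1] at h3 ⊢
      by_cases h2 : l = (i, false)
      · rw [if_pos h2]
        have := one_le_up (act i w k); omega
      · rw [if_neg h2] at h3 ⊢
        apply ih _ h3
        rcases List.mem_cons.1 h with h' | h'
        · exact absurd h'.symm h2
        · exact h'

theorem act_eq_of_pos (w : List (Lit n)) (h : (i, true) ∈ w) (k m : ℕ) :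
    act i w k = act i w m := by
  induction w with
  | nil => simp at h
  | cons l w ih =>
    rw [act_cons, act_cons]
    rcases List.mem_cons.1 h with h' | h'
    · subst h'; simp [litAct_true]
    · rw [ih h']

theorem act_eq_self (w : List (Lit n)) (h : (i, true) ∉ w) (h' : (i, false) ∉ w) (k : ℕ) :
    act i w k = k := by
  induction w with
  | nil => rfl
  | cons l w ih =>
    simp only [List.mem_cons, not_or] at h h'
    rw [act_cons, ih h.2 h'.2]
    unfold litAct
    rw [if_neg (fun e => h.1 e.symm), if_neg (fun e => h'.1 e.symm)]

theorem not_pos_of (w : List (Lit n)) (h : (i, false) ∉ w) (h3 : act i w 3 ≠ 0) :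
    (i, true) ∉ w := by
  intro hp
  apply h3
  rw [act_eq_of_pos i w hp 3 0]
  exact act_zero_of_noNeg i w h

theorem expressed_iff (w : List (Lit n)) : Expressed w i ↔ lev i w = 0 := by
  induction w with
  | nil => simp [Expressed, lev]
  | cons l w ih =>
    rw [lev_cons]
    unfold litAct
    split_ifs with h1 h2
    · subst h1
      simp only [iff_true]
      exact ⟨[], w, rfl, by simp, by simp⟩
    · subst h2
      constructor
      · rintro ⟨u, v, h, hu, hu'⟩
        cases u with
        | nil => simp at h
        | cons a u =>
          simp only [List.cons_append, List.cons.injEq] at h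
          rw [← h.1] at hu'
          simp at hu'
      · intro h; have := one_le_up (lev i w); omega
    · rw [← ih]
      constructor
      · rintro ⟨u, v, h, hu, hu'⟩
        cases u with
        | nil =>
          simp only [List.nil_append, List.cons.injEq] at h
          exact absurd h.1 h1
        | cons a u =>
          simp only [List.cons_append, List.cons.injEq] at h
          simp only [List.mem_cons, not_or] at hu hu'
          exact ⟨u, v, h.2, hu.2, hu'.2⟩
      · rintro ⟨u, v, h, hu, hu'⟩
        refine ⟨l :: u, v, by rw [h]; rfl, ?_, ?_⟩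
        · simp only [List.mem_cons, not_or]; exact ⟨fun e => h1 e.symm, hu⟩
        · simp only [List.mem_cons, not_or]; exact ⟨fun e => h2 e.symm, hu'⟩

/-- extra term in the sum estimate -/
noncomputable def extra (A : ℕ → ℝ≥0) (k : ℕ) : ℝ≥0 :=
  if k = 1 then A 0 else if k = 2 then 2 * A 1 else 0

theorem erase_sum (w : List (Lit n)) (A : ℕ → ℝ≥0) (hA : Antitone A) (h3 : A 3 = 0) :
    ∑ j ∈ Finset.range w.length, A (lev i (w.eraseIdx j)) ≤
      w.length * A (lev i w) + extra A (lev i w) := by
  induction w generalizing A with
  | nil => simp
  | cons l w ih =>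
    rw [List.length_cons, Finset.sum_range_succ']
    simp only [List.eraseIdx_cons_succ, List.eraseIdx_cons_zero, lev_cons]
    have hk := lev_le i w
    by_cases h1 : l = (i, true)
    · subst h1
      simp only [litAct_true]
      have hx : A (lev i w) ≤ A 0 := hA (Nat.zero_le _)
      rw [Finset.sum_const, Finset.card_range, nsmul_eq_mul]
      have he : extra A 0 = 0 := by simp [extra]
      rw [he, add_zero]
      push_cast
      nlinarith
    · by_cases h2 : l = (i, false)
      · subst h2
        simp only [litAct_false]
        have hB : Antitone (fun k => A (up k)) := fun a b hab => hA (up_mono hab)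
        have h3' : (fun k => A (up k)) 3 = 0 := by simpa [up] using h3
        have := ih (fun k => A (up k)) hB h3'
        have h01 : A 1 ≤ A 0 := hA (by norm_num)
        have h12 : A 2 ≤ A 1 := hA (by norm_num)
        have hlast : A 3 = 0 := h3
        interval_cases hl : lev i w
        · -- 0
          simp only [up, extra] at this ⊢
          norm_num at this ⊢
          push_cast
          nlinarith
        · simp only [up, extra] at this ⊢
          norm_num at this ⊢
          push_cast
          nlinarith
        · simp only [up, extra] at this ⊢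
          norm_num at this ⊢
          push_cast
          nlinarith
        · simp only [up, extra] at this ⊢
          norm_num at this ⊢
          rw [h3]
          simp only [add_zero, mul_zero, nonpos_iff_eq_zero]
          rw [h3, mul_zero, nonpos_iff_eq_zero] at this
          exact this
      · have e : ∀ k, litAct i l k = k := by
          intro k; unfold litAct; rw [if_neg h1, if_neg h2]
        simp only [e]
        have := ih A hA h3
        push_cast
        nlinarith

theorem lev_erase_le_set (w : List (Lit n)) (l : Lit n) (hl : l ≠ (i, true)) (j : ℕ)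
    (hj : j < w.length) :
    lev i (w.eraseIdx j) ≤ lev i (w.set j l) := by
  induction w generalizing j with
  | nil => simp at hj
  | cons a w ih =>
    cases j with
    | zero =>
      simp only [List.eraseIdx_cons_zero, List.set_cons_zero, lev_cons]
      exact le_litAct i l hl _
    | succ j =>
      simp only [List.eraseIdx_cons_succ, List.set_cons_succ, lev_cons]
      apply litAct_mono
      apply ih
      simpa using hj

theorem set_sum (w : List (Lit n)) (l : Lit n) (hl : l ≠ (i, true)) (A : ℕ → ℝ≥0)
    (hA : Antitone A) (h3 : A 3 = 0) :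
    ∑ j ∈ Finset.range w.length, A (lev i (w.set j l)) ≤
      w.length * A (lev i w) + extra A (lev i w) := by
  refine le_trans (Finset.sum_le_sum fun j hj => ?_) (erase_sum i w A hA h3)
  apply hA
  exact lev_erase_le_set i w l hl j (Finset.mem_range.1 hj)

end

end Pool.Agent.Lib.MP_3edecc_lc
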